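import Mathlib

/-!
# Coprime pairs in boxes, in a class of residues
-/

set_option autoImplicit false

namespace Pool.Agent.H461.Fam

open Finset

/-- the number of the solutions of a linear congruence in an interval -/
theorem lin_count (N : ℕ) (q L : ℕ) (hq : 1 ≤ q) (hqL : Nat.Coprime q L) (α i0 : ℤ) :
    (((Ico i0 (i0 + N)).filter (fun i => (q : ℤ) ∣ α + L * i)).card : ℝ) ≤ (N : ℝ) / q + 1 := by
  have hq0 : (0 : ℤ) < q := by exact_mod_cast hq
  have hqR : (0 : ℝ) < q := by exact_mod_cast hq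
  have hcop : IsCoprime (L : ℤ) (q : ℤ) := by
    rw [Int.isCoprime_iff_gcd_eq_one, Int.gcd_natCast_natCast]
    exact hqL.symm
  obtain ⟨u, v, huv⟩ := hcop
  have hsub : (Ico i0 (i0 + N)).filter (fun i => (q : ℤ) ∣ α + L * i) ⊆
      (Ico i0 (i0 + N)).filter (fun i => i ≡ -(u * α) [ZMOD q]) := by
    intro i hi
    rw [mem_filter] at hi ⊢
    refine ⟨hi.1, ?_⟩
    apply Int.ModEq.symm
    rw [Int.modEq_iff_dvd]
    have e : i - -(u * α) = u * (α + L * i) + q * (v * i) := by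
      linear_combination (-i) * huv
    rw [e]
    exact dvd_add (hi.2.mul_left _) (dvd_mul_right _ _)
  have h1 := Int.Ico_filter_modEq_card i0 (i0 + N) hq0 (-(u * α))
  have h2 : (((Ico i0 (i0 + N)).filter (fun i => i ≡ -(u * α) [ZMOD q])).card : ℝ) ≤ (N : ℝ) / q + 1 := by
    have h3 : (((((Ico i0 (i0 + N)).filter (fun i => i ≡ -(u * α) [ZMOD q])).card : ℕ) : ℤ) : ℝ) =
      ((max (⌈(((i0 + N : ℤ) : ℚ) - (-(u * α) : ℤ)) / ((q : ℤ) : ℚ)⌉ -
        ⌈((i0 : ℚ) - (-(u * α) : ℤ)) / ((q : ℤ) : ℚ)⌉) 0 : ℤ) : ℝ) := by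
      rw [h1]
    rw [Int.cast_natCast] at h3
    rw [h3, Int.cast_max, Int.cast_zero, max_le_iff]
    constructor
    · have h4 := Int.ceil_lt_add_one ((((i0 + N : ℤ) : ℚ) - (-(u * α) : ℤ)) / ((q : ℤ) : ℚ))
      have h5 := Int.le_ceil (((i0 : ℚ) - (-(u * α) : ℤ)) / ((q : ℤ) : ℚ))
      have h6 : (((⌈(((i0 + N : ℤ) : ℚ) - (-(u * α) : ℤ)) / ((q : ℤ) : ℚ)⌉ -
        ⌈((i0 : ℚ) - (-(u * α) : ℤ)) / ((q : ℤ) : ℚ)⌉ : ℤ)) : ℚ) ≤ (N : ℚ) / q + 1 := by
        push_cast at h4 h5 ⊢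
        have h7 : ((i0 : ℚ) + N - -(u * α)) / q = (i0 - -(u * α)) / q + N / q := by ring
        rw [h7] at h4
        rw [h7]
        linarith
      have h8 : ((((⌈(((i0 + N : ℤ) : ℚ) - (-(u * α) : ℤ)) / ((q : ℤ) : ℚ)⌉ -
        ⌈((i0 : ℚ) - (-(u * α) : ℤ)) / ((q : ℤ) : ℚ)⌉ : ℤ)) : ℚ) : ℝ) ≤ (((N : ℚ) / q + 1 : ℚ) : ℝ) := by
        exact_mod_cast h6
      push_cast at h8 ⊢
      exact h8
    · positivity
  exact (by exact_mod_cast card_le_card hsub : (_ : ℝ) ≤ _).trans h2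

theorem sum_inv_sq (Y : ℕ) : ∑ q ∈ Icc 2 Y, 1 / (q : ℝ) ^ 2 ≤ 3 / 4 := by
  have h : ∀ Y : ℕ, 2 ≤ Y → ∑ q ∈ Icc 2 Y, 1 / (q : ℝ) ^ 2 ≤ 3 / 4 - 1 / (Y : ℝ) := by
    intro Y hY
    induction Y, hY using Nat.le_induction with
    | base => norm_num
    | succ n hn ih =>
      rw [sum_Icc_succ_top (by omega)]
      have hn0 : (0 : ℝ) < n := by exact_mod_cast (by omega : 0 < n)
      have e : 1 / ((n + 1 : ℕ) : ℝ) ^ 2 ≤ 1 / n - 1 / ((n + 1 : ℕ) : ℝ) := by
        push_cast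
        rw [div_sub_div _ _ hn0.ne' (by positivity), div_le_div_iff₀ (by positivity) (by positivity)]
        nlinarith
      linarith
  rcases le_or_gt 2 Y with h2 | h2
  · have := h Y h2
    have h3 : (0 : ℝ) ≤ 1 / (Y : ℝ) := by positivity
    linarith
  · rw [Icc_eq_empty (by omega), sum_empty]
    norm_num

theorem sum_inv (Y : ℕ) : ∑ q ∈ Icc 2 Y, 1 / (q : ℝ) ≤ 1 + Real.log Y := by
  have h := harmonic_le_one_add_log Y
  refine le_trans ?_ h
  rw [harmonic_eq_sum_Icc]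
  push_cast
  simp only [one_div]
  refine sum_le_sum_of_subset_of_nonneg (Icc_subset_Icc (by norm_num) le_rfl) fun i _ _ => by positivity

open Classical in
/-- coprime pairs in a box -/
theorem cop_count (L : ℕ) (hL : 1 ≤ L) (K : ℕ) (hK : 1 ≤ K) : ∃ M₀ : ℕ, ∀ N M : ℕ, M₀ ≤ M → M ≤ N →
    ∀ α β i0 j0 : ℤ, (∀ p : ℕ, p.Prime → p ∣ L → ¬ ((p : ℤ) ∣ α ∧ (p : ℤ) ∣ β)) →
    (∀ j ∈ Ico j0 (j0 + M), |β + L * j| ≤ K * M) →
    (N : ℝ) * M / 8 ≤ (((Ico i0 (i0 + N) ×ˢ Ico j0 (j0 + M)).filter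
      (fun t => IsCoprime (α + L * t.1) (β + L * t.2))).card : ℝ) := by
  -- the size of `M`
  obtain ⟨M₀, hM₀⟩ : ∃ M₀ : ℕ, ∀ M : ℕ, M₀ ≤ M → 1 + 2 * (1 + Real.log ((K * M : ℕ) : ℝ)) + K ≤ M / 8 := by
    have h1 : Filter.Tendsto (fun x : ℝ => Real.log x / x) Filter.atTop (nhds 0) := by
      have := Real.isLittleO_log_id_atTop.tendsto_div_nhds_zero
      simpa using this
    have h2 : Filter.Tendsto (fun M : ℕ => ((K * M : ℕ) : ℝ)) Filter.atTop Filter.atTop := by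
      push_cast
      exact (tendsto_natCast_atTop_atTop).const_mul_atTop (by exact_mod_cast hK)
    have h3 := h1.comp h2
    have h4 : ∀ᶠ M : ℕ in Filter.atTop, Real.log ((K * M : ℕ) : ℝ) / ((K * M : ℕ) : ℝ) < 1 / (32 * K) :=
      h3.eventually (gt_mem_nhds (by positivity))
    obtain ⟨M₁, hM₁⟩ := Filter.eventually_atTop.1 h4
    refine ⟨max M₁ (16 * (K + 3) + 1), fun M hM => ?_⟩
    have h5 := hM₁ M ((le_max_left _ _).trans hM)
    have h6 : 16 * (K + 3) + 1 ≤ M := (le_max_right _ _).trans hM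
    have hK0 : (0 : ℝ) < K := by exact_mod_cast hK
    have hM0 : (0 : ℝ) < M := by exact_mod_cast (by omega : 0 < M)
    have h7 : (16 : ℝ) * (K + 3) + 1 ≤ M := by exact_mod_cast h6
    rw [div_lt_iff₀ (by push_cast; positivity)] at h5
    have h8 : 1 / (32 * (K : ℝ)) * ((K * M : ℕ) : ℝ) = M / 32 := by
      push_cast
      field_simp
    rw [h8] at h5
    linarith
  refine ⟨max M₀ 1, fun N M hM hMN α β i0 j0 hab hj => ?_⟩
  have hM1 : 1 ≤ M := (le_max_right _ _).trans hM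
  have hMR : (1 : ℝ) ≤ M := by exact_mod_cast hM1
  have hNR : (M : ℝ) ≤ N := by exact_mod_cast hMN
  have hlog := hM₀ M ((le_max_left _ _).trans hM)
  set I := Ico i0 (i0 + N) with hI
  set J := Ico j0 (j0 + M) with hJ
  set Y := K * M with hY
  set B : Finset (ℤ × ℤ) := (I ×ˢ J).filter (fun t => ¬ IsCoprime (α + L * t.1) (β + L * t.2)) with hB
  have hcI : I.card = N := by rw [hI, Int.card_Ico]; simp
  have hcJ : J.card = M := by rw [hJ, Int.card_Ico]; simp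
  have hL0 : (L : ℤ) ≠ 0 := by exact_mod_cast (by omega : L ≠ 0)
  have hsub : B ⊆ (I ×ˢ (J.filter (fun j => β + L * j = 0))) ∪
      ((Icc 2 Y).filter (fun q => Nat.Coprime q L)).biUnion (fun q =>
        (I.filter (fun i => (q : ℤ) ∣ α + L * i)) ×ˢ (J.filter (fun j => (q : ℤ) ∣ β + L * j))) := by
    intro t ht
    rw [hB, mem_filter, mem_product] at ht
    obtain ⟨⟨h1, h2⟩, h3⟩ := ht
    rw [mem_union]
    by_cases h0 : β + L * t.2 = 0
    · left
      rw [mem_product, mem_filter]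
      exact ⟨h1, h2, h0⟩
    · right
      rw [Int.isCoprime_iff_gcd_eq_one] at h3
      obtain ⟨p, hp, hpd⟩ := Nat.exists_prime_and_dvd h3
      have hpa : (p : ℤ) ∣ α + L * t.1 := (Int.natCast_dvd_natCast.2 hpd).trans (Int.gcd_dvd_left _ _)
      have hpb : (p : ℤ) ∣ β + L * t.2 := (Int.natCast_dvd_natCast.2 hpd).trans (Int.gcd_dvd_right _ _)
      rw [mem_biUnion]
      refine ⟨p, ?_, ?_⟩
      · rw [mem_filter, mem_Icc]
        refine ⟨⟨hp.two_le, ?_⟩, ?_⟩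
        · have h4 := Int.le_of_dvd (abs_pos.2 h0) ((dvd_abs _ _).2 hpb)
          have h5 := hj t.2 h2
          have h6 : (p : ℤ) ≤ ((K * M : ℕ) : ℤ) := by push_cast; linarith
          exact_mod_cast h6
        · rw [hp.coprime_iff_not_dvd]
          intro hpL
          have hpL' : (p : ℤ) ∣ (L : ℤ) := Int.natCast_dvd_natCast.2 hpL
          exact hab p hp hpL ⟨(dvd_add_left (hpL'.mul_right _)).1 hpa,
            (dvd_add_left (hpL'.mul_right _)).1 hpb⟩
      · rw [mem_product, mem_filter, mem_filter]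
        exact ⟨⟨h1, hpa⟩, h2, hpb⟩
  have hz : (J.filter (fun j => β + L * j = 0)).card ≤ 1 := by
    rw [card_le_one]
    intro x hx y hy
    rw [mem_filter] at hx hy
    have h1 : (L : ℤ) * x = L * y := by linarith [hx.2, hy.2]
    exact mul_left_cancel₀ hL0 h1
  have hBc : (B.card : ℝ) ≤ N + ∑ q ∈ Icc 2 Y, ((N : ℝ) / q + 1) * (M / q + 1) := by
    have h1 : (B.card : ℝ) ≤ ((I ×ˢ (J.filter (fun j => β + L * j = 0))).card : ℝ) +
        ((((Icc 2 Y).filter (fun q => Nat.Coprime q L)).biUnion (fun q =>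
        (I.filter (fun i => (q : ℤ) ∣ α + L * i)) ×ˢ (J.filter (fun j => (q : ℤ) ∣ β + L * j)))).card : ℝ) := by
      exact_mod_cast (card_le_card hsub).trans (card_union_le _ _)
    have h2 : ((I ×ˢ (J.filter (fun j => β + L * j = 0))).card : ℝ) ≤ N := by
      rw [card_product, hcI]
      have : N * (J.filter (fun j => β + L * j = 0)).card ≤ N * 1 := Nat.mul_le_mul_left _ hz
      rw [mul_one] at this
      exact_mod_cast this
    have h3 : ((((Icc 2 Y).filter (fun q => Nat.Coprime q L)).biUnion (fun q =>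
        (I.filter (fun i => (q : ℤ) ∣ α + L * i)) ×ˢ (J.filter (fun j => (q : ℤ) ∣ β + L * j)))).card : ℝ) ≤
        ∑ q ∈ (Icc 2 Y).filter (fun q => Nat.Coprime q L), ((N : ℝ) / q + 1) * (M / q + 1) := by
      refine (by exact_mod_cast card_biUnion_le : (_ : ℝ) ≤ _).trans (b := ∑ q ∈ (Icc 2 Y).filter (fun q => Nat.Coprime q L),
        ((((I.filter (fun i => (q : ℤ) ∣ α + L * i)) ×ˢ (J.filter (fun j => (q : ℤ) ∣ β + L * j))).card : ℕ) : ℝ)) ?_
      refine sum_le_sum fun q hq => ?_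
      rw [mem_filter, mem_Icc] at hq
      rw [card_product]
      push_cast
      have hq0 : (0 : ℝ) < q := by exact_mod_cast (by omega : 0 < q)
      exact mul_le_mul (lin_count N q L (by omega) hq.2 α i0) (lin_count M q L (by omega) hq.2 β j0)
        (by positivity) (by positivity)
    have h4 : ∑ q ∈ (Icc 2 Y).filter (fun q => Nat.Coprime q L), ((N : ℝ) / q + 1) * (M / q + 1) ≤
        ∑ q ∈ Icc 2 Y, ((N : ℝ) / q + 1) * (M / q + 1) :=
      sum_le_sum_of_subset_of_nonneg (filter_subset _ _) fun q _ _ => by positivity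
    linarith
  have hS : ∑ q ∈ Icc 2 Y, ((N : ℝ) / q + 1) * (M / q + 1) ≤
      N * M * (3 / 4) + (N + M) * (1 + Real.log (Y : ℝ)) + Y := by
    have e : ∀ q ∈ Icc 2 Y, ((N : ℝ) / q + 1) * (M / q + 1) =
        N * M * (1 / (q : ℝ) ^ 2) + (N + M) * (1 / q) + 1 := by
      intro q hq
      rw [mem_Icc] at hq
      have hq0 : (q : ℝ) ≠ 0 := by exact_mod_cast (by omega : q ≠ 0)
      field_simp
      ring
    rw [sum_congr rfl e, sum_add_distrib, sum_add_distrib, ← mul_sum, ← mul_sum, sum_const,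
      Nat.card_Icc, nsmul_eq_mul, mul_one]
    have h1 := mul_le_mul_of_nonneg_left (sum_inv_sq Y) (by positivity : (0 : ℝ) ≤ N * M)
    have h2 := mul_le_mul_of_nonneg_left (sum_inv Y) (by positivity : (0 : ℝ) ≤ N + M)
    have h3 : ((Y + 1 - 2 : ℕ) : ℝ) ≤ Y := by exact_mod_cast (by omega : Y + 1 - 2 ≤ Y)
    linarith
  have htot : ((I ×ˢ J).filter (fun t => IsCoprime (α + L * t.1) (β + L * t.2))).card + B.card =
      (I ×ˢ J).card := card_filter_add_card_filter_not _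
  rw [card_product, hcI, hcJ] at htot
  have htotR : (((I ×ˢ J).filter (fun t => IsCoprime (α + L * t.1) (β + L * t.2))).card : ℝ) + B.card =
      N * M := by exact_mod_cast htot
  have hYR : (Y : ℝ) = K * M := by rw [hY]; push_cast; ring
  have hK0 : (1 : ℝ) ≤ K := by exact_mod_cast hK
  have hlog0 : 0 ≤ Real.log (Y : ℝ) := Real.log_nonneg (by rw [hYR]; nlinarith)
  have h9 : (N : ℝ) + ((N + M) * (1 + Real.log (Y : ℝ)) + Y) ≤ N * M / 8 := by
    have h10 : (N : ℝ) * (1 + 2 * (1 + Real.log ((K * M : ℕ) : ℝ)) + K) ≤ N * (M / 8) :=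
      mul_le_mul_of_nonneg_left hlog (by positivity)
    rw [← hY] at h10
    have h11 : ((N : ℝ) + M) * (1 + Real.log (Y : ℝ)) ≤ (2 * N) * (1 + Real.log (Y : ℝ)) :=
      mul_le_mul_of_nonneg_right (by linarith) (by positivity)
    have h12 : (Y : ℝ) ≤ N * K := by
      rw [hYR]
      nlinarith
    nlinarith
  linarith

end Pool.Agent.H461.Fam
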