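import Pool.Agent.H461.Fam.Loc

/-!
# Large discriminants in every semistable family, close to a given fibre
-/

set_option autoImplicit false

namespace Pool.Agent.H461.Fam

open Finset Polynomial Filter Topology
open Pool.Agent.Y670.RD

/-- the number of the geometric points of the line with bad fibre -/
noncomputable def cusps (e : ℕ) (a b : ℤ[X]) : ℕ :=
  ((a ^ 3 - b ^ 2).rootSet ℂ).ncard + if (a ^ 3 - b ^ 2).natDegree < 6 * e then 1 else 0

/-- a power of `X` is small -/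
theorem pow_small (u v c : ℝ) (huv : u < v) (hc : 0 < c) : ∃ X₀ : ℝ, ∀ X : ℝ, X₀ ≤ X →
    X ^ u ≤ c * X ^ v := by
  have h1 : Tendsto (fun X : ℝ => X ^ (v - u)) atTop atTop := tendsto_rpow_atTop (by linarith)
  obtain ⟨X₀, h2⟩ := eventually_atTop.1 (h1.eventually_ge_atTop (1 / c))
  refine ⟨max X₀ 1, fun X hX => ?_⟩
  have h3 := h2 X ((le_max_left _ _).trans hX)
  have hX1 : 1 ≤ X := (le_max_right _ _).trans hX
  have hX0 : 0 < X := by linarith
  have h4 : X ^ v = X ^ (v - u) * X ^ u := by rw [← Real.rpow_add hX0]; ring_nf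
  rw [h4, ← mul_assoc]
  have h5 : 1 ≤ c * X ^ (v - u) := by
    have := mul_le_mul_of_nonneg_left h3 hc.le
    rwa [mul_one_div_cancel hc.ne'] at this
  have h6 : 0 ≤ X ^ u := by positivity
  nlinarith

theorem card_image_ge {α β : Type*} [DecidableEq β] (s : Finset α) (φ : α → β) (n : ℕ) (hn : 1 ≤ n)
    (h : ∀ b ∈ s.image φ, (s.filter (fun a => φ a = b)).card ≤ n) :
    (s.card : ℝ) / n ≤ ((s.image φ).card : ℝ) := by
  have h1 := card_le_mul_card_image s n h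
  rw [div_le_iff₀ (by exact_mod_cast hn)]
  have h2 : (s.card : ℝ) ≤ n * ((s.image φ).card : ℝ) := by exact_mod_cast h1
  linarith

open Classical in
theorem main {e : ℕ} {a b : ℤ[X]} (hF : NoCommon e a b) (W₀ : WeierstrassCurve ℤ)
    (h₀ : Semistable W₀) (t₀ : ℚ) (hf : Fibre a b t₀ W₀) (Q : ℕ) (hQ : 1 ≤ Q) (η : ℝ) (hη : 0 < η)
    (κ : ℝ) (h1 : 6 * (e : ℝ) / cusps e a b ≤ κ) (h2 : κ < 6 * (e : ℝ) / ((cusps e a b : ℝ) - 2)) :
    ∃ c X₀ : ℝ, 0 < c ∧ ∀ X : ℝ, X₀ ≤ X → ∃ S : Finset (ℤ × ℤ),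
      c * X ^ (1 - κ * ((cusps e a b : ℝ) - 2) / (6 * e)) ≤ (S.card : ℝ) ∧
      ∀ q ∈ S, ∃ (W : WeierstrassCurve ℤ) (t : ℚ), q = (W.c₄, W.c₆) ∧ Semistable W ∧
        Fibre a b t W ∧ |(t : ℝ) - t₀| < η ∧
        W.a₁ = W₀.a₁ ∧ W.a₂ = W₀.a₂ ∧ W.a₃ = W₀.a₃ ∧
        (Q : ℤ) ∣ W.a₄ - W₀.a₄ ∧ (Q : ℤ) ∣ W.a₆ - W₀.a₆ ∧
        |(W.c₄ : ℝ) ^ 3 / W.Δ - (W₀.c₄ : ℝ) ^ 3 / W₀.Δ| < η ∧
        (cond W : ℝ) ≤ X ∧ X ^ κ ≤ |(W.Δ : ℝ)| := by
  set s : ℕ := cusps e a b with hs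
  set f := a ^ 3 - b ^ 2 with hfd
  set δ : ℕ := if f.natDegree < 6 * e then 1 else 0 with hδ
  have hsd : s = (f.rootSet ℂ).ncard + δ := rfl
  have he0 : (0 : ℝ) ≤ 6 * (e : ℝ) := by positivity
  have hs0 : (0 : ℝ) ≤ (s : ℝ) := by positivity
  have hκ0 : 0 ≤ κ := (by positivity : (0 : ℝ) ≤ 6 * (e : ℝ) / s).trans h1
  -- at least three cusps
  have hs3 : 3 ≤ s := by
    by_contra hcon
    have h3 : (s : ℝ) - 2 ≤ 0 := by
      have : (s : ℝ) ≤ 2 := by exact_mod_cast (by omega : s ≤ 2)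
      linarith
    have h4 : 6 * (e : ℝ) / ((s : ℝ) - 2) ≤ 0 := div_nonpos_of_nonneg_of_nonpos he0 h3
    linarith
  have hs3R : (3 : ℝ) ≤ s := by exact_mod_cast hs3
  have he1 : 1 ≤ e := by
    by_contra hcon
    have h3 : e = 0 := by omega
    rw [h3] at h2
    simp at h2
    linarith
  have he1R : (1 : ℝ) ≤ e := by exact_mod_cast he1
  have h6e : (0 : ℝ) < 6 * (e : ℝ) := by positivity
  have hκs : 6 * (e : ℝ) ≤ κ * s := by
    rwa [div_le_iff₀ (by linarith)] at h1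
  have hκs2 : κ * ((s : ℝ) - 2) < 6 * e := by
    rwa [lt_div_iff₀ (by linarith)] at h2
  have hκp : 0 < κ := by
    by_contra hcon
    have : κ = 0 := le_antisymm (not_lt.1 hcon) hκ0
    rw [this, zero_mul] at hκs
    linarith
  have hf0 : f ≠ 0 := by
    intro h3
    rw [h3] at hsd
    rw [rootSet_zero, Set.ncard_empty, zero_add] at hsd
    have : δ ≤ 1 := by rw [hδ]; split_ifs <;> omega
    omega
  have hδ1 : δ ≤ 1 := by rw [hδ]; split_ifs <;> omega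
  -- the squarefree part
  obtain ⟨g, h, h', m, k, k', hk, hk', hgsq, hgd, hgh, hgh'⟩ := exists_sqf f hf0
  have hg0 : g ≠ 0 := by
    rintro rfl
    rw [zero_mul] at hgh'
    exact mul_ne_zero (C_ne_zero.2 hk') hf0 hgh'
  have hg2 : 2 ≤ g.natDegree := by omega
  -- the exponents
  set θ : ℝ := κ / (6 * e) with hθ
  have hθ0 : 0 < θ := by positivity
  have hθs : 1 ≤ θ * s := by
    rw [hθ, div_mul_eq_mul_div, le_div_iff₀ h6e]; linarith
  have hθs2 : θ * (s - 2) < 1 := by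
    rw [hθ, div_mul_eq_mul_div, div_lt_iff₀ h6e]; linarith
  obtain ⟨τ, hτ0, hτ, hτθ⟩ : ∃ τ : ℝ, 0 < τ ∧ τ < 1 / 2 ∧ (θ * s - 1) * (1 - τ) < θ := by
    have h3 : (θ * s - 1) / 2 < θ := by linarith
    have h4 : Tendsto (fun τ : ℝ => (θ * s - 1) * (1 - τ)) (𝓝[<] (1 / 2)) (𝓝 ((θ * s - 1) * (1 - 1 / 2))) := by
      apply tendsto_nhdsWithin_of_tendsto_nhds
      exact (continuous_const.mul (continuous_const.sub continuous_id)).tendsto _
    have h5 : ∀ᶠ τ : ℝ in 𝓝[<] (1 / 2), (θ * s - 1) * (1 - τ) < θ :=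
      h4.eventually (gt_mem_nhds (by linarith))
    have h6 : ∀ᶠ τ : ℝ in 𝓝[<] (1 / 2), τ < 1 / 2 := eventually_mem_nhdsWithin
    have h7 : ∀ᶠ τ : ℝ in 𝓝[<] (1 / 2), 0 < τ :=
      eventually_nhdsWithin_of_eventually_nhds (lt_mem_nhds (by norm_num))
    obtain ⟨τ, h8, h9, h10⟩ := (h5.and (h6.and h7)).exists
    exact ⟨τ, h10, h9, h8⟩
  -- the constants
  obtain ⟨M, K, ν, hM1, hK1, hν, hcurve⟩ := exists_curve hF W₀ h₀ t₀ hf Q hQ
  obtain ⟨P, c, C', hPM, hP1, hc, hC', hsup⟩ := supply_of g hgsq hg2 τ hτ0 hτ M hM1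
  have hfib0 := fibre_rel h₀.1 hf
  obtain ⟨η₁, hη₁, hη₁', hcont⟩ := near_t hfib0.1 η hη
  set η₂ : ℝ := min (1 / 2) (η₁ / (4 * (1 + |(t₀ : ℝ)|))) with hη₂
  have hη₂0 : 0 < η₂ := by positivity
  have hη₂1 : η₂ ≤ 1 / 2 := min_le_left _ _
  have hη₂2 : η₂ ≤ η₁ / (4 * (1 + |(t₀ : ℝ)|)) := min_le_right _ _
  obtain ⟨C₀, c₀, hC₀, hc₀, hlat⟩ := lat_count (M * P) (Nat.mul_pos hM1 hP1) t₀ 1 η₂ hη₂0
  set F₀ : ℝ := |aeval (t₀ : ℝ) f| with hF₀
  have hF₀p : 0 < F₀ := abs_pos.2 hfib0.1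
  set c₄ : ℝ := ν * (F₀ / 2) / 2 ^ (6 * e) with hc₄
  have hc₄p : 0 < c₄ := by positivity
  set C₁ : ℝ := (1 / c₄) ^ (1 / (6 * (e : ℝ))) with hC₁
  have hC₁p : 0 < C₁ := by positivity
  set r := g.natDegree with hr
  set Cg : ℝ := (∑ i ∈ range (r + 1), |(g.coeff i : ℝ)|) + 1 with hCg
  have hCgp : 0 < Cg := by
    have : (0 : ℝ) ≤ ∑ i ∈ range (r + 1), |(g.coeff i : ℝ)| := sum_nonneg fun i _ => abs_nonneg _
    positivity
  set B₀ : ℝ := |(t₀ : ℝ)| + 2 with hB₀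
  have hB₀p : 0 < B₀ := by positivity
  have hsr : s = r + δ := by rw [hsd, hgd]
  set C₅ : ℝ := K * |(k : ℝ)| * P * Cg * B₀ ^ s with hC₅
  have hkp : 0 < |(k : ℝ)| := abs_pos.2 (by exact_mod_cast hk)
  have hKp : (0 : ℝ) < K := by exact_mod_cast hK1
  have hPp : (0 : ℝ) < P := by exact_mod_cast hP1
  have hC₅p : 0 < C₅ := by positivity
  set C₆ : ℝ := C₅ + (C₁ ^ s)⁻¹ with hC₆
  have hC₆p : 0 < C₆ := by positivity
  have hC'p : 0 < C' := by linarith
  -- the bound for X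
  obtain ⟨X₁, hX₁⟩ := pow_small ((θ * s - 1) * (1 - τ)) θ
    (C₁ * c / (C₀ * (C' * C₆ * C₁ ^ s) ^ (1 - τ))) hτθ (by positivity)
  refine ⟨c₀ * (C₁ ^ 2 / (C' * C₆ * C₁ ^ s)) / (6 * e : ℕ), max X₁ 1, by positivity, fun X hX => ?_⟩
  have hX1 : 1 ≤ X := (le_max_right _ _).trans hX
  have hX0 : 0 < X := by linarith
  have hXs := hX₁ X ((le_max_left _ _).trans hX)
  set H : ℝ := C₁ * X ^ θ with hH
  have hHp : 0 < H := by positivity
  have hHs : H ^ s = C₁ ^ s * X ^ (θ * s) := by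
    rw [hH, mul_pow, ← Real.rpow_natCast (X ^ θ) s, ← Real.rpow_mul hX0.le]
  have hHe : c₄ * H ^ (6 * e) = X ^ κ := by
    rw [hH, mul_pow, ← Real.rpow_natCast (X ^ θ) (6 * e), ← Real.rpow_mul hX0.le]
    have e1 : C₁ ^ (6 * e) = 1 / c₄ := by
      rw [hC₁, ← Real.rpow_natCast, ← Real.rpow_mul (by positivity)]
      have : 1 / (6 * (e : ℝ)) * ((6 * e : ℕ) : ℝ) = 1 := by
        push_cast
        field_simp
      rw [this, Real.rpow_one]
    have e2 : θ * ((6 * e : ℕ) : ℝ) = κ := by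
      rw [hθ]
      push_cast
      field_simp
    rw [e1, e2]
    field_simp
  have hHsX : (C₁ ^ s)⁻¹ * (H ^ s / X) = X ^ (θ * s - 1) := by
    rw [hHs, Real.rpow_sub hX0, Real.rpow_one]
    field_simp
  set D₀ : ℝ := max 1 (C₅ * H ^ s / X) with hD₀
  have hD₀1 : 1 ≤ D₀ := le_max_left _ _
  have hD₀2 : D₀ ≤ C₆ * (H ^ s / X) := by
    have h3 : 1 ≤ X ^ (θ * s - 1) := Real.one_le_rpow hX1 (by linarith)
    have h4 : 0 ≤ H ^ s / X := by positivity
    rw [hD₀, hC₆, max_le_iff, add_mul]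
    constructor
    · rw [hHsX]
      have : 0 ≤ C₅ * (H ^ s / X) := by positivity
      linarith
    · rw [hHsX, mul_div_assoc]
      linarith
  obtain ⟨D, ρ, hD1, hDD₀, hDC, hDP, hDdiv, hDlow⟩ := hsup D₀ hD₀1
  have hD1R : (1 : ℝ) ≤ D := by exact_mod_cast hD1
  have hDup : (D : ℝ) ≤ (C' * C₆) * (H ^ s / X) := by
    calc (D : ℝ) ≤ C' * D₀ := hDC
      _ ≤ C' * (C₆ * (H ^ s / X)) := mul_le_mul_of_nonneg_left hD₀2 hC'p.le
      _ = _ := by ring
  have hDup2 : (D : ℝ) ≤ (C' * C₆ * C₁ ^ s) * X ^ (θ * s - 1) := by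
    refine hDup.trans (le_of_eq ?_)
    rw [← hHsX]
    field_simp
  obtain ⟨zs, ys, hcls, hcls2⟩ := exists_class M P D hPM hDP ρ t₀.num t₀.den
    (by rw [Int.isCoprime_iff_gcd_eq_one]; exact t₀.reduced)
  -- the lattice points
  have hlatapp := hlat D ρ zs ys (c * (D : ℝ) ^ τ) H hD1 (by positivity) hHp hcls ?_ ?_
  rotate_left
  · intro z y hzy
    have hxy : ¬ ((D : ℤ) * z + ρ * y = 0 ∧ y = 0) := by
      rintro ⟨h3, h4⟩
      rw [h4, mul_zero, add_zero] at h3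
      rcases mul_eq_zero.1 h3 with h5 | h5
      · have : D = 0 := by exact_mod_cast h5
        omega
      · exact hzy ⟨h5, h4⟩
    have h3 := hDlow (D * z + ρ * y) y (by rw [add_sub_cancel_right]; exact dvd_mul_right _ _) hxy
    have h4 : (nf D ρ z y : ℝ) = (((D : ℤ) * z + ρ * y : ℤ) : ℝ) ^ 2 + (y : ℝ) ^ 2 := by
      unfold nf
      push_cast
      ring
    rw [h4]
    calc (c * (D : ℝ) ^ τ) ^ 2 ≤ (max |(((D : ℤ) * z + ρ * y : ℤ) : ℝ)| |(y : ℝ)|) ^ 2 :=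
        pow_le_pow_left₀ (by positivity) h3 2
      _ ≤ _ := by
        rcases max_choice |(((D : ℤ) * z + ρ * y : ℤ) : ℝ)| |(y : ℝ)| with h5 | h5
        · rw [h5, sq_abs]
          exact le_add_of_nonneg_right (sq_nonneg _)
        · rw [h5, sq_abs]
          exact le_add_of_nonneg_left (sq_nonneg _)
  · -- the size of D
    have hDτ : (D : ℝ) = (D : ℝ) ^ (1 - τ) * (D : ℝ) ^ τ := by
      rw [← Real.rpow_add (by linarith)]
      simp
    have h3 : C₀ * (D : ℝ) ^ (1 - τ) ≤ H * c := by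
      have h4 : (D : ℝ) ^ (1 - τ) ≤ (C' * C₆ * C₁ ^ s) ^ (1 - τ) * X ^ ((θ * s - 1) * (1 - τ)) := by
        have h5 := Real.rpow_le_rpow (by linarith) hDup2 (by linarith : 0 ≤ 1 - τ)
        rwa [Real.mul_rpow (by positivity) (by positivity), ← Real.rpow_mul hX0.le] at h5
      have h6 : 0 < (C' * C₆ * C₁ ^ s) ^ (1 - τ) := by positivity
      calc C₀ * (D : ℝ) ^ (1 - τ) ≤
          C₀ * ((C' * C₆ * C₁ ^ s) ^ (1 - τ) * X ^ ((θ * s - 1) * (1 - τ))) :=
            mul_le_mul_of_nonneg_left h4 hC₀.le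
        _ ≤ C₀ * ((C' * C₆ * C₁ ^ s) ^ (1 - τ) *
            (C₁ * c / (C₀ * (C' * C₆ * C₁ ^ s) ^ (1 - τ)) * X ^ θ)) :=
            mul_le_mul_of_nonneg_left (mul_le_mul_of_nonneg_left hXs h6.le) hC₀.le
        _ = H * c := by
            rw [hH]
            field_simp
    calc C₀ * (D : ℝ) = (C₀ * (D : ℝ) ^ (1 - τ)) * (D : ℝ) ^ τ := by
          rw [mul_assoc, ← hDτ]
      _ ≤ (H * c) * (D : ℝ) ^ τ := mul_le_mul_of_nonneg_right h3 (by positivity)
      _ = H * (c * (D : ℝ) ^ τ) := by ring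
  obtain ⟨PP, hPPc, hPP⟩ := hlatapp
  -- the properties of the points
  have hprop : ∀ p ∈ PP, ∃ W : WeierstrassCurve ℤ, IsCoprime p.1 p.2 ∧ 0 < p.2 ∧ Semistable W ∧
        Fibre a b ((p.1 : ℚ) / p.2) W ∧ |(((p.1 : ℚ) / p.2 : ℚ) : ℝ) - t₀| < η ∧
        W.a₁ = W₀.a₁ ∧ W.a₂ = W₀.a₂ ∧ W.a₃ = W₀.a₃ ∧
        (Q : ℤ) ∣ W.a₄ - W₀.a₄ ∧ (Q : ℤ) ∣ W.a₆ - W₀.a₆ ∧
        |(W.c₄ : ℝ) ^ 3 / W.Δ - (W₀.c₄ : ℝ) ^ 3 / W₀.Δ| < η ∧
        (cond W : ℝ) ≤ X ∧ X ^ κ ≤ |(W.Δ : ℝ)| := by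
    rintro ⟨x, y⟩ hp
    obtain ⟨z, hx, hzy, hzs, hys, hxH, hyH⟩ := hPP (x, y) hp
    simp only at hx hzy hys hxH hyH ⊢
    obtain ⟨hxy, hxM, hyM⟩ := hcls2 x y z hx hzy hzs hys
    rw [mul_one] at hyH
    rw [abs_le] at hyH
    have hηH : η₂ * H ≤ 1 / 2 * H := mul_le_mul_of_nonneg_right hη₂1 hHp.le
    have hy1 : H / 2 ≤ (y : ℝ) := by linarith [hyH.1]
    have hy2 : (y : ℝ) ≤ 2 * H := by linarith [hyH.2]
    have hyp : (0 : ℝ) < y := by linarith
    have hy0 : 0 < y := by exact_mod_cast hyp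
    have hyne : y ≠ 0 := hy0.ne'
    -- the parameter
    have ht : |(x : ℝ) / y - t₀| < η₁ := by
      have e1 : (x : ℝ) / y - t₀ = (x - H * t₀ - t₀ * (y - H)) / y := by
        field_simp
        ring
      rw [e1, abs_div, abs_of_pos hyp, div_lt_iff₀ hyp]
      calc |(x : ℝ) - H * t₀ - t₀ * (y - H)| ≤ |(x : ℝ) - H * t₀| + |(t₀ : ℝ) * (y - H)| := abs_sub _ _
        _ ≤ η₂ * H + |(t₀ : ℝ)| * (η₂ * H) := by
          rw [abs_mul]
          exact add_le_add hxH (mul_le_mul_of_nonneg_left (abs_le.2 hyH) (abs_nonneg _))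
        _ = η₂ * (1 + |(t₀ : ℝ)|) * H := by ring
        _ ≤ (η₁ / 4) * H := by
          apply mul_le_mul_of_nonneg_right _ hHp.le
          have h3 : (0 : ℝ) < 1 + |(t₀ : ℝ)| := by positivity
          calc η₂ * (1 + |(t₀ : ℝ)|) ≤ η₁ / (4 * (1 + |(t₀ : ℝ)|)) * (1 + |(t₀ : ℝ)|) :=
              mul_le_mul_of_nonneg_right hη₂2 h3.le
            _ = η₁ / 4 := by field_simp
        _ < η₁ * y := by
          have h3 : η₁ * (H / 2) ≤ η₁ * y := mul_le_mul_of_nonneg_left hy1 hη₁.le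
          have h4 : 0 < η₁ * H := mul_pos hη₁ hHp
          linarith
    obtain ⟨hct1, hct2⟩ := hcont _ ht
    -- the value of the discriminant form
    have hdeg : f.natDegree ≤ 6 * e := by
      obtain ⟨ha, hb, -, -⟩ := hF
      refine (natDegree_sub_le _ _).trans (max_le ?_ ?_)
      · refine natDegree_pow_le.trans ?_
        omega
      · refine natDegree_pow_le.trans ?_
        omega
    have hFv : (fv (6 * e) f x y : ℝ) = (y : ℝ) ^ (6 * e) * aeval ((x : ℝ) / y) f :=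
      fv_eq hdeg hyp.ne'
    have hFabs : H ^ (6 * e) * (F₀ / 2) / 2 ^ (6 * e) ≤ |(fv (6 * e) f x y : ℝ)| := by
      rw [hFv, abs_mul, abs_of_pos (pow_pos hyp _)]
      calc H ^ (6 * e) * (F₀ / 2) / 2 ^ (6 * e) = (H / 2) ^ (6 * e) * (F₀ / 2) := by
            rw [div_pow]; ring
        _ ≤ (y : ℝ) ^ (6 * e) * |aeval ((x : ℝ) / y) f| :=
          mul_le_mul (pow_le_pow_left₀ (by positivity) hy1 _) hct1 (by positivity) (by positivity)
    have hFne : fv (6 * e) f x y ≠ 0 := by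
      intro h3
      rw [h3, Int.cast_zero, abs_zero] at hFabs
      have : 0 < H ^ (6 * e) * (F₀ / 2) / 2 ^ (6 * e) := by positivity
      linarith
    obtain ⟨W, hW1, hW2, hW3, hW4, hW5, hW6, hW7, hW8, hW9⟩ := hcurve x y hxy hyne hxM hyM hFne
    refine ⟨W, hxy, hy0, hW6, hW7, ?_, hW1, hW2, hW3, hW4, hW5, ?_, ?_, ?_⟩
    · push_cast
      exact ht.trans_le hη₁'
    · rw [(fibre_rel hW6.1 hW7).2, hfib0.2]
      push_cast
      exact hct2
    · -- the conductor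
      have hGne : fv r g x y ≠ 0 := by
        intro h3
        have h4 : aeval ((x : ℝ) / y) g = 0 := by
          have h5 : (fv r g x y : ℝ) = (y : ℝ) ^ r * aeval ((x : ℝ) / y) g := fv_eq le_rfl hyp.ne'
          rw [h3, Int.cast_zero] at h5
          exact (mul_eq_zero.1 h5.symm).resolve_left (pow_ne_zero _ hyp.ne')
        have h5 : aeval ((x : ℝ) / y) f = 0 := by
          have h6 := congrArg (aeval ((x : ℝ) / y)) hgh'
          rw [map_mul, map_mul, h4, zero_mul, aeval_C] at h6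
          refine (mul_eq_zero.1 h6).resolve_left ?_
          have : (algebraMap ℤ ℝ) k' = k' := rfl
          rw [this]
          exact_mod_cast hk'
        rw [h5, abs_zero] at hct1
        have : 0 < F₀ / 2 := by positivity
        linarith
      have hdvd := hDdiv x y hyne (by rw [hx, add_sub_cancel_right]; exact dvd_mul_right _ _)
      have h3 := cond_le W K k P D y (fv r g x y) (by exact_mod_cast (by omega : K ≠ 0)) hk
        (by exact_mod_cast (by omega : P ≠ 0)) hyne hGne hdvd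
        (fun p hp hpd => by
          have := hDP p hp (by exact_mod_cast hpd)
          exact_mod_cast this) δ
        (fun p hp hpd => by
          rcases hW9 p hp hpd with h4 | h4
          · left
            exact_mod_cast h4
          · rcases prime_fv hk hf0 hg0 hgh (6 * e) hdeg x y hyne p hp h4 with h5 | ⟨h5, h6⟩ | h5
            · exact Or.inr (Or.inl h5)
            · refine Or.inr (Or.inr (Or.inl ⟨?_, h6⟩))
              rw [hδ, if_pos h5]
            · exact Or.inr (Or.inr (Or.inr h5)))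
      simp only [Int.cast_natCast, Nat.abs_cast] at h3
      have hxb : |(x : ℝ)| ≤ B₀ * H := by
        have h4 : |(x : ℝ)| ≤ |(x : ℝ) - H * t₀| + |H * (t₀ : ℝ)| := by
          have := abs_add_le ((x : ℝ) - H * t₀) (H * t₀)
          rwa [sub_add_cancel] at this
        rw [abs_mul, abs_of_pos hHp] at h4
        have h5 : B₀ * H = H * |(t₀ : ℝ)| + 2 * H := by rw [hB₀]; ring
        rw [h5]
        linarith
      have hyb : |(y : ℝ)| ≤ B₀ * H := by
        rw [abs_of_pos hyp]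
        have h4 : 0 ≤ H * |(t₀ : ℝ)| := mul_nonneg hHp.le (abs_nonneg _)
        have h5 : B₀ * H = H * |(t₀ : ℝ)| + 2 * H := by rw [hB₀]; ring
        rw [h5]
        linarith
      have hGb : |(fv r g x y : ℝ)| ≤ Cg * (B₀ * H) ^ r := by
        refine (fv_le r g x y).trans (mul_le_mul (by linarith) ?_ (by positivity) (by positivity))
        exact pow_le_pow_left₀ (le_max_of_le_left (abs_nonneg _)) (max_le hxb hyb) _
      have h4 : (cond W : ℝ) * D ≤ C₅ * H ^ s := by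
        calc (cond W : ℝ) * D ≤ K * |(k : ℝ)| * |(y : ℝ)| ^ δ * P * |(fv r g x y : ℝ)| := h3
          _ ≤ K * |(k : ℝ)| * (B₀ * H) ^ δ * P * (Cg * (B₀ * H) ^ r) := by
            gcongr
          _ = C₅ * H ^ s := by
            rw [hC₅, hsr, pow_add, pow_add, mul_pow, mul_pow]
            ring
      have h5 : C₅ * H ^ s / X ≤ D := (le_max_right _ _).trans hDD₀
      rw [div_le_iff₀ hX0] at h5
      have h6 : (cond W : ℝ) * D ≤ X * D := by linarith
      exact le_of_mul_le_mul_right h6 (by linarith)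
    · rw [hW8, ← hHe, hc₄]
      calc ν * (F₀ / 2) / 2 ^ (6 * e) * H ^ (6 * e) = ν * (H ^ (6 * e) * (F₀ / 2) / 2 ^ (6 * e)) := by ring
        _ ≤ ν * |(fv (6 * e) f x y : ℝ)| := mul_le_mul_of_nonneg_left hFabs hν.le
  choose! Wf hWf using hprop
  refine ⟨PP.image fun p => ((Wf p).c₄, (Wf p).c₆), ?_, ?_⟩
  · have hmult := card_image_ge PP (fun p => ((Wf p).c₄, (Wf p).c₆)) (6 * e) (by omega) ?_
    · refine le_trans ?_ hmult
      have h3 : c₀ * (C₁ ^ 2 / (C' * C₆ * C₁ ^ s)) * X ^ (1 - κ * ((s : ℝ) - 2) / (6 * e)) ≤ PP.card := by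
        refine le_trans ?_ hPPc
        have h4 : c₀ * H ^ 2 / D ≥ c₀ * H ^ 2 / ((C' * C₆ * C₁ ^ s) * X ^ (θ * s - 1)) :=
          div_le_div_of_nonneg_left (by positivity) (by linarith) hDup2
        refine le_trans (le_of_eq ?_) h4
        have e1 : H ^ 2 = C₁ ^ 2 * X ^ (θ * 2) := by
          rw [hH, mul_pow, ← Real.rpow_natCast (X ^ θ) 2, ← Real.rpow_mul hX0.le]
          norm_num
        have e2 : (1 : ℝ) - κ * ((s : ℝ) - 2) / (6 * e) = θ * 2 - (θ * s - 1) := by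
          rw [hθ]
          ring
        rw [e1, e2, Real.rpow_sub hX0 (θ * 2) (θ * s - 1)]
        field_simp
      have h6 : (0 : ℝ) < ((6 * e : ℕ) : ℝ) := by exact_mod_cast (by omega : 0 < 6 * e)
      rw [div_mul_eq_mul_div]
      exact div_le_div_of_nonneg_right h3 h6.le
    · intro q hq
      rw [mem_image] at hq
      obtain ⟨p₀, hp₀, hq⟩ := hq
      have hss := (hWf p₀ hp₀).2.2.1
      set T := (PP.filter (fun p => ((Wf p).c₄, (Wf p).c₆) = q)).image (fun p => (p.1 : ℚ) / p.2) with hT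
      have hinj : Set.InjOn (fun p : ℤ × ℤ => (p.1 : ℚ) / p.2)
          (PP.filter (fun p => ((Wf p).c₄, (Wf p).c₆) = q) : Set (ℤ × ℤ)) := by
        intro p hp p' hp' heq
        rw [coe_filter, Set.mem_ofPred_eq] at hp hp'
        obtain ⟨hc1, hp1, -⟩ := hWf p hp.1
        obtain ⟨hc2, hp2, -⟩ := hWf p' hp'.1
        have h3 := Rat.div_int_inj hp1 hp2 (Int.isCoprime_iff_gcd_eq_one.1 hc1)
          (Int.isCoprime_iff_gcd_eq_one.1 hc2) heq
        exact Prod.ext h3.1 h3.2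
      rw [← card_image_of_injOn hinj]
      refine mult_bound he1 hF q.1 q.2 ?_ T ?_
      · rw [← hq]
        by_contra hcon
        push Not at hcon
        simp only at hcon
        have h3 := (Wf p₀).c_relation
        rw [hcon.1, hcon.2] at h3
        have h4 : (Wf p₀).Δ = 0 := by
          have : 1728 * (Wf p₀).Δ = 0 := by rw [h3]; ring
          omega
        exact hss.1 h4
      · intro t ht
        rw [hT, mem_image] at ht
        obtain ⟨p, hp, rfl⟩ := ht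
        rw [mem_filter] at hp
        obtain ⟨-, -, -, hfb, -⟩ := hWf p hp.1
        rw [← hp.2]
        exact hfb
  · intro q hq
    rw [mem_image] at hq
    obtain ⟨p, hp, rfl⟩ := hq
    obtain ⟨-, -, h3, h4, h5, h6, h7, h8, h9, h10, h11, h12, h13⟩ := hWf p hp
    exact ⟨Wf p, (p.1 : ℚ) / p.2, rfl, h3, h4, h5, h6, h7, h8, h9, h10, h11, h12, h13⟩

end Pool.Agent.H461.Fam
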