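import Pool.Agent.H461.Fam.Mod

/-!
# Lattices on which a binary form is divisible by the index: the theorem of Ridout
-/

set_option autoImplicit false

namespace Pool.Agent.H461.Fam

open Finset Polynomial
open Pool.Agent.Y670.RD

theorem padicNorm_le_of_dvd (p : ℕ) (hp : p.Prime) (k : ℕ) (n : ℤ) (h : ((p : ℤ) ^ k) ∣ n) :
    (padicNorm p (n : ℚ) : ℝ) ≤ ((p : ℝ) ^ k)⁻¹ := by
  have : Fact p.Prime := ⟨hp⟩
  have h1 : padicNorm p (n : ℚ) ≤ (p : ℚ) ^ (-(k : ℤ)) := by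
    have := (padicNorm.dvd_iff_norm_le (p := p) (n := k) (z := n)).1 (by exact_mod_cast h)
    exact_mod_cast this
  have h2 : ((padicNorm p (n : ℚ) : ℚ) : ℝ) ≤ (((p : ℚ) ^ (-(k : ℤ)) : ℚ) : ℝ) := by exact_mod_cast h1
  refine h2.trans (le_of_eq ?_)
  push_cast
  rw [zpow_neg, zpow_natCast]

/-- the theorem of Ridout for one prime -/
theorem rid_low (g : ℤ[X]) (hg : Squarefree (g.map (Int.castRingHom ℚ))) (hd : 1 ≤ g.natDegree)
    (p : ℕ) (hp : p.Prime) (τ : ℝ) (hτ0 : 0 < τ) (hτ : τ < 1 / 2) :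
    ∃ c : ℝ, 0 < c ∧ c ≤ 1 ∧ ∀ (s t : ℤ) (k : ℕ), IsCoprime s t → fv g.natDegree g s t ≠ 0 →
      ((p : ℤ) ^ k) ∣ fv g.natDegree g s t → c * ((p : ℝ) ^ k) ^ τ ≤ max |(s : ℝ)| |(t : ℝ)| := by
  set ε : ℝ := 1 / τ - 2 with hε
  have hε0 : 0 < ε := by
    rw [hε, sub_pos, lt_div_iff₀ hτ0]
    linarith
  obtain ⟨c, hc, h⟩ := rid_form' g hg hd {p} (by simpa using hp) ε hε0
  set A : ℝ := (∑ i ∈ range (g.natDegree + 1), |(g.coeff i : ℝ)|) + c with hA
  have hS0 : (0 : ℝ) ≤ ∑ i ∈ range (g.natDegree + 1), |(g.coeff i : ℝ)| :=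
    sum_nonneg fun i _ => abs_nonneg _
  have hA0 : 0 < A := by positivity
  have hcA : c / A ≤ 1 := by rw [div_le_one hA0]; linarith
  refine ⟨(c / A) ^ τ, by positivity, Real.rpow_le_one (by positivity) hcA hτ0.le,
    fun s t k hst h0 hdv => ?_⟩
  set M : ℝ := max |(s : ℝ)| |(t : ℝ)| with hM
  have hM1 : 1 ≤ M := by
    by_contra hlt
    push Not at hlt
    have h1 : |(s : ℝ)| < 1 := (le_max_left _ _).trans_lt hlt
    have h2 : |(t : ℝ)| < 1 := (le_max_right _ _).trans_lt hlt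
    have h3 : s = 0 := by
      have : |s| < 1 := by exact_mod_cast h1
      exact Int.abs_lt_one_iff.1 this
    have h4 : t = 0 := by
      have : |t| < 1 := by exact_mod_cast h2
      exact Int.abs_lt_one_iff.1 this
    rw [h3, h4] at hst
    exact not_isCoprime_zero_zero hst
  have hM0 : 0 < M := by linarith
  have hpk : (0 : ℝ) < (p : ℝ) ^ k := pow_pos (by exact_mod_cast hp.pos) _
  have h1 := h s t hst h0
  rw [prod_singleton] at h1
  have h2 : |(fv g.natDegree g s t : ℝ)| ≤ A * M ^ g.natDegree :=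
    (fv_le _ _ _ _).trans (mul_le_mul_of_nonneg_right (by linarith) (by positivity))
  have h3 := padicNorm_le_of_dvd p hp k _ hdv
  have h4 : c * M ^ ((g.natDegree : ℝ) - 2 - ε) ≤ (A * M ^ g.natDegree) * ((p : ℝ) ^ k)⁻¹ := by
    refine h1.trans (mul_le_mul h2 h3 ?_ (by positivity))
    have : (0 : ℚ) ≤ padicNorm p (fv g.natDegree g s t : ℚ) := padicNorm.nonneg _
    exact_mod_cast this
  have h5 : M ^ ((g.natDegree : ℝ) - 2 - ε) * M ^ (1 / τ) = M ^ g.natDegree := by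
    rw [← Real.rpow_add hM0, ← Real.rpow_natCast]
    congr 1
    rw [hε]
    ring
  have h6 : (c / A) * (p : ℝ) ^ k ≤ M ^ (1 / τ) := by
    have h7 : 0 < M ^ ((g.natDegree : ℝ) - 2 - ε) := by positivity
    rw [← h5] at h4
    have h8 : (c * (p : ℝ) ^ k) * M ^ ((g.natDegree : ℝ) - 2 - ε) ≤
        (A * M ^ (1 / τ)) * M ^ ((g.natDegree : ℝ) - 2 - ε) := by
      have h9 := mul_le_mul_of_nonneg_right h4 hpk.le
      have e : A * (M ^ ((g.natDegree : ℝ) - 2 - ε) * M ^ (1 / τ)) * ((p : ℝ) ^ k)⁻¹ * (p : ℝ) ^ k =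
          (A * M ^ (1 / τ)) * M ^ ((g.natDegree : ℝ) - 2 - ε) := by
        field_simp
      rw [e] at h9
      linarith
    have h10 := le_of_mul_le_mul_right h8 h7
    rw [div_mul_eq_mul_div, div_le_iff₀ hA0]
    linarith
  have h11 : ((c / A) * (p : ℝ) ^ k) ^ τ ≤ (M ^ (1 / τ)) ^ τ :=
    Real.rpow_le_rpow (by positivity) h6 hτ0.le
  rw [← Real.rpow_mul hM0.le, one_div_mul_cancel hτ0.ne', Real.rpow_one,
    Real.mul_rpow (by positivity) (by positivity)] at h11
  exact h11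

/-- no rational roots -/
theorem supply_irr (g : ℤ[X]) (hg : Squarefree (g.map (Int.castRingHom ℚ))) (hd : 1 ≤ g.natDegree)
    (hno : ∀ s t : ℤ, IsCoprime s t → fv g.natDegree g s t ≠ 0)
    (τ : ℝ) (hτ0 : 0 < τ) (hτ : τ < 1 / 2) (M₀ : ℕ) (hM₀ : 1 ≤ M₀) :
    Supply g g.natDegree τ M₀ := by
  -- the discriminant
  obtain ⟨K, hK, hdisc⟩ : ∃ K : ℤ, K ≠ 0 ∧ ∀ (p : ℕ) (n : ℤ), p.Prime → ¬ (p : ℤ) ∣ K →
      (p : ℤ) ∣ g.eval n → ¬ (p : ℤ) ∣ g.derivative.eval n := by
    have hsep : (g.map (Int.castRingHom ℚ)).Separable :=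
      (PerfectField.separable_iff_squarefree).2 hg
    obtain ⟨u, v, huv⟩ := hsep
    obtain ⟨a, ha, hu⟩ := IsLocalization.integerNormalization_spec (nonZeroDivisors ℤ) u
    obtain ⟨b, hb, hv⟩ := IsLocalization.integerNormalization_spec (nonZeroDivisors ℤ) v
    set U := IsLocalization.integerNormalization (nonZeroDivisors ℤ) u with hU
    set V := IsLocalization.integerNormalization (nonZeroDivisors ℤ) v with hV
    have ha0 : a ≠ 0 := nonZeroDivisors.ne_zero ha
    have hb0 : b ≠ 0 := nonZeroDivisors.ne_zero hb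
    have hu' : U.map (Int.castRingHom ℚ) = C (a : ℚ) * u := by
      have h1 : U.map (Int.castRingHom ℚ) = a • u := hu
      rw [h1, zsmul_eq_mul]
      simp
    have hv' : V.map (Int.castRingHom ℚ) = C (b : ℚ) * v := by
      have h1 : V.map (Int.castRingHom ℚ) = b • v := hv
      rw [h1, zsmul_eq_mul]
      simp
    have key : C b * U * g + C a * V * g.derivative = C (a * b) := by
      apply map_injective (Int.castRingHom ℚ) Int.cast_injective
      rw [Polynomial.map_add, Polynomial.map_mul, Polynomial.map_mul, Polynomial.map_mul,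
        Polynomial.map_mul, map_C, map_C, map_C, hu', hv', ← derivative_map]
      have e : C ((Int.castRingHom ℚ) b) * (C (a : ℚ) * u) * g.map (Int.castRingHom ℚ) +
          C ((Int.castRingHom ℚ) a) * (C (b : ℚ) * v) * derivative (g.map (Int.castRingHom ℚ)) =
          C ((Int.castRingHom ℚ) (a * b)) * (u * g.map (Int.castRingHom ℚ) +
            v * derivative (g.map (Int.castRingHom ℚ))) := by
        simp only [eq_intCast, Int.cast_mul, C_mul]
        ring
      rw [e, huv, mul_one]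
    refine ⟨a * b, mul_ne_zero ha0 hb0, fun p n hp hpK h1 h2 => hpK ?_⟩
    have h3 := congrArg (eval n) key
    simp only [eval_add, eval_mul, eval_C] at h3
    rw [← h3]
    exact dvd_add (h1.mul_left _) (h2.mul_left _)
  obtain ⟨p, hp, hpK, n, hn⟩ := exists_root_prime g hd (K * M₀)
    (mul_ne_zero hK (by exact_mod_cast (by omega : M₀ ≠ 0)))
  have hpK' : ¬ (p : ℤ) ∣ K := fun h => hpK (h.mul_right _)
  have hpM : ¬ p ∣ M₀ := fun h => hpK ((Int.natCast_dvd_natCast.2 h).mul_left _)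
  have hder := hdisc p n hp hpK' hn
  have hpR : (1 : ℝ) ≤ p := by exact_mod_cast hp.one_lt.le
  obtain ⟨c, hc, hc1, hlow⟩ := rid_low g hg hd p hp τ hτ0 hτ
  refine ⟨p, c, p, (hp.coprime_iff_not_dvd).2 hpM, hp.one_lt.le, hc, hpR, fun D₀ hD₀ => ?_⟩
  obtain ⟨i, hi1, hi2⟩ := near_pow p hp D₀ hD₀
  obtain ⟨ρ, -, hρ⟩ := hensel g p hp n hn hder i
  have hdivk : ∀ (k : ℕ), k ≤ i + 1 → ∀ x y : ℤ, ((p : ℤ) ^ k) ∣ x - ρ * y →
      ((p : ℤ) ^ k) ∣ fv g.natDegree g x y := by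
    intro k hk x y h
    have h1 := fv_congr g.natDegree g y h
    have h2 : fv g.natDegree g (ρ * y) y = y ^ g.natDegree * g.eval ρ := by
      have := fv_homog g.natDegree g y ρ 1
      rw [mul_one, mul_comm y ρ, fv_one _ _ le_rfl] at this
      exact this
    rw [h2] at h1
    have h3 : ((p : ℤ) ^ k) ∣ y ^ g.natDegree * g.eval ρ := ((pow_dvd_pow _ hk).trans hρ).mul_left _
    have h4 := dvd_add h1 h3
    rwa [sub_add_cancel] at h4
  refine ⟨p ^ (i + 1), ρ, pow_pos hp.pos _, by push_cast; exact hi1, by push_cast; exact hi2, ?_, ?_, ?_⟩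
  · intro l hl hld
    exact ((Nat.prime_dvd_prime_iff_eq hl hp).1 (hl.dvd_of_dvd_pow hld)) ▸ dvd_refl _
  · intro x y _ h
    push_cast at h ⊢
    exact hdivk (i + 1) le_rfl x y h
  · intro x y h hxy
    push_cast at h ⊢
    -- divide by the greatest common divisor
    have hg0 : Int.gcd x y ≠ 0 := fun h0 => hxy (Int.gcd_eq_zero_iff.1 h0)
    obtain ⟨x', hx'⟩ := Int.gcd_dvd_left x y
    obtain ⟨y', hy'⟩ := Int.gcd_dvd_right x y
    set d := Int.gcd x y with hd'
    have hcop : IsCoprime x' y' := by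
      obtain ⟨a, b, hab⟩ : ∃ a b : ℤ, (d : ℤ) = x * a + y * b := ⟨_, _, Int.gcd_eq_gcd_ab x y⟩
      have hd0 : (d : ℤ) ≠ 0 := by exact_mod_cast hg0
      refine ⟨a, b, ?_⟩
      apply mul_left_cancel₀ hd0
      rw [mul_one]
      calc (d : ℤ) * (a * x' + b * y') = (d * x') * a + (d * y') * b := by ring
        _ = x * a + y * b := by rw [← hx', ← hy']
        _ = d := hab.symm
    obtain ⟨j, d', hpd', hdj⟩ := Nat.exists_eq_pow_mul_and_not_dvd hg0 p hp.ne_one
    have hd'1 : 1 ≤ d' := by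
      rcases Nat.eq_zero_or_pos d' with h0 | h0
      · exfalso
        rw [h0] at hpd'
        exact hpd' (dvd_zero _)
      · exact h0
    have hdR : ((p : ℝ) ^ j) ≤ d := by
      rw [hdj]
      push_cast
      have : (1 : ℝ) ≤ d' := by exact_mod_cast hd'1
      nlinarith [pow_pos (by linarith : (0 : ℝ) < p) j]
    set M : ℝ := max |(x' : ℝ)| |(y' : ℝ)| with hM
    have hMx : max |(x : ℝ)| |(y : ℝ)| = d * M := by
      rw [hM, mul_max_of_nonneg _ _ (by positivity), hx', hy']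
      push_cast
      rw [abs_mul, abs_mul, Nat.abs_cast]
    have hM1 : 1 ≤ M := by
      by_contra hlt
      push Not at hlt
      have h1 : |(x' : ℝ)| < 1 := (le_max_left _ _).trans_lt hlt
      have h2 : |(y' : ℝ)| < 1 := (le_max_right _ _).trans_lt hlt
      have h3 : x' = 0 := by
        have : |x'| < 1 := by exact_mod_cast h1
        exact Int.abs_lt_one_iff.1 this
      have h4 : y' = 0 := by
        have : |y'| < 1 := by exact_mod_cast h2
        exact Int.abs_lt_one_iff.1 this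
      rw [h3, h4] at hcop
      exact not_isCoprime_zero_zero hcop
    rw [hMx]
    have hpj : (0 : ℝ) < (p : ℝ) ^ j := pow_pos (by linarith) _
    rcases le_or_gt (i + 1) j with hij | hij
    · have h1 : ((p : ℝ) ^ (i + 1)) ^ τ ≤ (p : ℝ) ^ j := by
        have h2 : (1 : ℝ) ≤ (p : ℝ) ^ (i + 1) := one_le_pow₀ hpR
        calc ((p : ℝ) ^ (i + 1)) ^ τ ≤ ((p : ℝ) ^ (i + 1)) ^ (1 : ℝ) :=
            Real.rpow_le_rpow_of_exponent_le h2 (by linarith)
          _ = (p : ℝ) ^ (i + 1) := Real.rpow_one _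
          _ ≤ (p : ℝ) ^ j := pow_le_pow_right₀ hpR hij
      calc c * ((p : ℝ) ^ (i + 1)) ^ τ ≤ 1 * ((p : ℝ) ^ j) :=
          mul_le_mul hc1 h1 (by positivity) (by norm_num)
        _ = (p : ℝ) ^ j * 1 := by ring
        _ ≤ d * M := mul_le_mul hdR hM1 (by norm_num) (by positivity)
    · obtain ⟨k, hk⟩ : ∃ k, i + 1 = j + k := ⟨i + 1 - j, by omega⟩
      have hpI : Prime (p : ℤ) := Nat.prime_iff_prime_int.1 hp
      have h1 : ((p : ℤ) ^ k) ∣ x' - ρ * y' := by
        rw [hk, pow_add] at h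
        have e : x - ρ * y = (p : ℤ) ^ j * (d' * (x' - ρ * y')) := by
          have hdjZ : (d : ℤ) = (p : ℤ) ^ j * d' := by exact_mod_cast hdj
          calc x - ρ * y = d * x' - ρ * (d * y') := by rw [← hx', ← hy']
            _ = (p : ℤ) ^ j * (d' * (x' - ρ * y')) := by rw [hdjZ]; ring
        rw [e] at h
        have h2 : ((p : ℤ) ^ k) ∣ d' * (x' - ρ * y') :=
          (mul_dvd_mul_iff_left (pow_ne_zero _ hpI.ne_zero)).1 h
        have h3 : IsCoprime ((p : ℤ) ^ k) (d' : ℤ) :=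
          ((Prime.coprime_iff_not_dvd hpI).2 (fun h4 => hpd' (Int.natCast_dvd_natCast.1 h4))).pow_left
        exact h3.dvd_of_dvd_mul_left h2
      have h2 := hlow x' y' k hcop (hno x' y' hcop) (hdivk k (by omega) x' y' h1)
      rw [← hM] at h2
      rw [hk, pow_add, Real.mul_rpow (by positivity) (by positivity)]
      have h3 : ((p : ℝ) ^ j) ^ τ ≤ (p : ℝ) ^ j := by
        have h2 : (1 : ℝ) ≤ (p : ℝ) ^ j := one_le_pow₀ hpR
        calc ((p : ℝ) ^ j) ^ τ ≤ ((p : ℝ) ^ j) ^ (1 : ℝ) :=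
            Real.rpow_le_rpow_of_exponent_le h2 (by linarith)
          _ = (p : ℝ) ^ j := Real.rpow_one _
      calc c * (((p : ℝ) ^ j) ^ τ * ((p : ℝ) ^ k) ^ τ) = ((p : ℝ) ^ j) ^ τ * (c * ((p : ℝ) ^ k) ^ τ) := by ring
        _ ≤ (p : ℝ) ^ j * M := mul_le_mul h3 h2 (by positivity) hpj.le
        _ ≤ d * M := mul_le_mul_of_nonneg_right hdR (by linarith)

theorem clear (P : ℚ[X]) :
    ∃ (m : ℤ) (Q : ℤ[X]), m ≠ 0 ∧ Q.map (Int.castRingHom ℚ) = C (m : ℚ) * P := by
  obtain ⟨m, hm, h⟩ := IsLocalization.integerNormalization_spec (nonZeroDivisors ℤ) P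
  refine ⟨m, IsLocalization.integerNormalization (nonZeroDivisors ℤ) P,
    nonZeroDivisors.ne_zero hm, ?_⟩
  have h1 : (IsLocalization.integerNormalization (nonZeroDivisors ℤ) P).map
    (Int.castRingHom ℚ) = m • P := h
  rw [h1, zsmul_eq_mul]
  simp

theorem fv_eq_zero_iff (g : ℤ[X]) (hg : g ≠ 0) (s t : ℤ) (hst : IsCoprime s t) :
    fv g.natDegree g s t = 0 ↔ t ≠ 0 ∧ (g.map (Int.castRingHom ℚ)).IsRoot ((s : ℚ) / t) := by
  by_cases ht : t = 0
  · rw [ht, fv_zero]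
    refine ⟨fun h => ?_, fun h => absurd rfl h.1⟩
    exfalso
    rw [ht] at hst
    have hs : IsUnit s := isCoprime_zero_right.mp hst
    rcases mul_eq_zero.1 h with h1 | h1
    · exact leadingCoeff_ne_zero.2 hg h1
    · exact pow_ne_zero _ hs.ne_zero h1
  · have ht' : (t : ℚ) ≠ 0 := by exact_mod_cast ht
    have h1 := fvq (f := g) (s := s) le_rfl ht
    have h2 : aeval ((s : ℚ) / t) g = (g.map (Int.castRingHom ℚ)).eval ((s : ℚ) / t) := by
      rw [eval_map, aeval_def]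
      rfl
    rw [IsRoot.def, ← h2]
    constructor
    · intro h
      rw [h, Int.cast_zero] at h1
      exact ⟨ht, (mul_eq_zero.1 h1.symm).resolve_left (pow_ne_zero _ ht')⟩
    · rintro ⟨-, h⟩
      rw [h, mul_zero] at h1
      exact_mod_cast h1

theorem supply_of (g : ℤ[X]) (hg : Squarefree (g.map (Int.castRingHom ℚ))) (hd : 2 ≤ g.natDegree)
    (τ : ℝ) (hτ0 : 0 < τ) (hτ : τ < 1 / 2) (M₀ : ℕ) (hM₀ : 1 ≤ M₀) :
    Supply g g.natDegree τ M₀ := by
  have hg0 : g ≠ 0 := by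
    rintro rfl
    simp at hd
  by_cases h2 : ∃ a₁ b₁ a₂ b₂ : ℤ, IsCoprime a₁ b₁ ∧ IsCoprime a₂ b₂ ∧
      fv g.natDegree g a₁ b₁ = 0 ∧ fv g.natDegree g a₂ b₂ = 0 ∧ a₁ * b₂ - a₂ * b₁ ≠ 0
  · obtain ⟨a₁, b₁, a₂, b₂, hc1, hc2, hz1, hz2, hne⟩ := h2
    exact supply_rat g a₁ b₁ a₂ b₂ ((fv_eq_zero_iff g hg0 a₁ b₁ hc1).1 hz1).1
      ((fv_eq_zero_iff g hg0 a₂ b₂ hc2).1 hz2).1 hz1 hz2 hne τ hτ0 hτ M₀ hM₀
  by_cases h1 : ∃ a b : ℤ, IsCoprime a b ∧ fv g.natDegree g a b = 0
  · obtain ⟨a, b, hab, hz⟩ := h1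
    obtain ⟨hb, hroot⟩ := (fv_eq_zero_iff g hg0 a b hab).1 hz
    have hbQ : (b : ℚ) ≠ 0 := by exact_mod_cast hb
    set G := g.map (Int.castRingHom ℚ) with hG
    have hG0 : G ≠ 0 := (Polynomial.map_ne_zero_iff Int.cast_injective).2 hg0
    have hGd : G.natDegree = g.natDegree := natDegree_map_eq_of_injective Int.cast_injective g
    obtain ⟨h, hh⟩ := dvd_iff_isRoot.2 hroot
    obtain ⟨m, g₁, hm, hg₁⟩ := clear h
    have hmQ : (m : ℚ) ≠ 0 := by exact_mod_cast hm
    have hh0 : h ≠ 0 := by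
      rintro rfl
      rw [mul_zero] at hh
      exact hG0 hh
    have hg₁0 : g₁ ≠ 0 := by
      rintro rfl
      rw [Polynomial.map_zero] at hg₁
      exact (mul_ne_zero (C_ne_zero.2 hmQ) hh0) hg₁.symm
    have hhd : g.natDegree = h.natDegree + 1 := by
      rw [← hGd, hh, natDegree_mul (X_sub_C_ne_zero _) hh0, natDegree_X_sub_C, add_comm]
    have hg₁d : g₁.natDegree = h.natDegree := by
      rw [← natDegree_map_eq_of_injective (f := Int.castRingHom ℚ) Int.cast_injective g₁, hg₁,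
        natDegree_C_mul hmQ]
    have hsq1 : Squarefree (g₁.map (Int.castRingHom ℚ)) := by
      have h3 : Squarefree h := hg.squarefree_of_dvd (by rw [hh]; exact dvd_mul_left _ _)
      rw [hg₁]
      have hassoc : Associated h (C (m : ℚ) * h) :=
        ⟨Units.mk (C (m : ℚ)) (C (m : ℚ)⁻¹) (by rw [← C_mul, mul_inv_cancel₀ hmQ, C_1])
          (by rw [← C_mul, inv_mul_cancel₀ hmQ, C_1]), by simp [mul_comm]⟩
      exact (hassoc.squarefree_iff).1 h3
    have hno1 : ∀ s t : ℤ, IsCoprime s t → fv g₁.natDegree g₁ s t ≠ 0 := by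
      intro s t hst hz1
      obtain ⟨ht, hr1⟩ := (fv_eq_zero_iff g₁ hg₁0 s t hst).1 hz1
      have hr2 : h.IsRoot ((s : ℚ) / t) := by
        rw [hg₁, IsRoot.def, eval_mul, eval_C] at hr1
        exact (mul_eq_zero.1 hr1).resolve_left hmQ
      have hr3 : G.IsRoot ((s : ℚ) / t) := by
        rw [hh]
        exact root_mul_left_of_isRoot _ hr2
      have hz2 : fv g.natDegree g s t = 0 := (fv_eq_zero_iff g hg0 s t hst).2 ⟨ht, hr3⟩
      have heq : a * t - s * b = 0 := by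
        by_contra hne
        exact h2 ⟨a, b, s, t, hab, hst, hz, hz2, hne⟩
      have htQ : (t : ℚ) ≠ 0 := by exact_mod_cast ht
      have heq2 : (s : ℚ) / t = (a : ℚ) / b := by
        rw [div_eq_div_iff htQ hbQ]
        have h4 : (a : ℚ) * t - s * b = 0 := by exact_mod_cast heq
        linarith
      rw [heq2] at hr2
      obtain ⟨h', hh'⟩ := dvd_iff_isRoot.2 hr2
      have h5 : (X - C ((a : ℚ) / b)) * (X - C ((a : ℚ) / b)) ∣ G := by
        rw [hh, hh', ← mul_assoc]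
        exact dvd_mul_right _ _
      have h6 := hg _ h5
      exact not_isUnit_X_sub_C _ h6
    have hsupp := supply_irr g₁ hsq1 (by omega) hno1 τ hτ0 hτ (M₀ * (m.natAbs * b.natAbs))
      (Nat.mul_pos hM₀ (Nat.mul_pos (Int.natAbs_pos.2 hm) (Int.natAbs_pos.2 hb)))
    obtain ⟨P, c, C', hP, hP1, hc, hC, hsup⟩ := hsupp
    refine ⟨P, c, C', hP.coprime_mul_right_right, hP1, hc, hC, fun D₀ hD₀ => ?_⟩
    obtain ⟨D, ρ, h3, h4, h5, h6, h7, h8⟩ := hsup D₀ hD₀
    refine ⟨D, ρ, h3, h4, h5, h6, fun x y hy hxy => ?_, h8⟩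
    have h9 := h7 x y hy hxy
    have hyQ : (y : ℚ) ≠ 0 := by exact_mod_cast hy
    have hid : b * m * fv g.natDegree g x y = (b * x - a * y) * fv g₁.natDegree g₁ x y := by
      have e1 := fvq (f := g) (s := x) le_rfl hy
      have e2 := fvq (f := g₁) (s := x) le_rfl hy
      have e3 : aeval ((x : ℚ) / y) g = G.eval ((x : ℚ) / y) := by
        rw [hG, eval_map, aeval_def]
        rfl
      have e4 : aeval ((x : ℚ) / y) g₁ = m * h.eval ((x : ℚ) / y) := by
        have : aeval ((x : ℚ) / y) g₁ = (g₁.map (Int.castRingHom ℚ)).eval ((x : ℚ) / y) := by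
          rw [eval_map, aeval_def]
          rfl
        rw [this, hg₁, eval_mul, eval_C]
      have e5 : G.eval ((x : ℚ) / y) = ((x : ℚ) / y - a / b) * h.eval ((x : ℚ) / y) := by
        rw [hh, eval_mul, eval_sub, eval_X, eval_C]
      have e6 : ((b * m * fv g.natDegree g x y : ℤ) : ℚ) =
          (((b * x - a * y) * fv g₁.natDegree g₁ x y : ℤ) : ℚ) := by
        push_cast
        rw [e1, e2, e3, e4, e5, hhd, hg₁d, pow_succ]
        field_simp
      exact_mod_cast e6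
    have h10 : (D : ℤ) ∣ b * m * fv g.natDegree g x y := by
      rw [hid]
      exact h9.mul_left _
    have h11 : IsCoprime (D : ℤ) (b * m) := by
      rw [Int.isCoprime_iff_gcd_eq_one]
      by_contra hgc
      obtain ⟨l, hl, hld⟩ := Nat.exists_prime_and_dvd hgc
      have h12 : l ∣ D := by
        have : (l : ℤ) ∣ (D : ℤ) := (Int.natCast_dvd_natCast.2 hld).trans (Int.gcd_dvd_left _ _)
        exact_mod_cast this
      have h13 : (l : ℤ) ∣ b * m := (Int.natCast_dvd_natCast.2 hld).trans (Int.gcd_dvd_right _ _)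
      have h14 : l ∣ m.natAbs * b.natAbs := by
        rw [← Int.natAbs_mul, mul_comm m b]
        exact Int.natCast_dvd.1 h13
      have h15 := Nat.Coprime.coprime_mul_left_right hP
      have h16 := Nat.dvd_gcd (h6 l hl h12) h14
      rw [h15] at h16
      exact hl.one_lt.ne' (Nat.dvd_one.1 h16)
    exact h11.dvd_of_dvd_mul_left h10
  · push Not at h1
    exact supply_irr g hg (by omega) (fun s t hst => h1 s t hst) τ hτ0 hτ M₀ hM₀

end Pool.Agent.H461.Fam
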