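import Pool.Agent.H461.Fam.Frm
import Pool.Agent.H461.Om.Model

/-!
# Semistable fibres close to a given one
-/

set_option autoImplicit false

namespace Pool.Agent.H461.Fam

open Finset Polynomial
open Pool.Agent.Y670.RD
open Pool.Agent.H461.Om (Pert Pert_c4 Pert_c6 Pert_D)

/-- semistable, minimal -/
def Semistable (W : WeierstrassCurve ℤ) : Prop := W.Δ ≠ 0 ∧ IsCoprime W.c₄ W.Δ

/-- the product of the primes dividing the discriminant -/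
def cond (W : WeierstrassCurve ℤ) : ℕ := ∏ p ∈ W.Δ.natAbs.primeFactors, p

/-- `W` is a twist of the fibre over `t` -/
def Fibre (a b : ℤ[X]) (t : ℚ) (W : WeierstrassCurve ℤ) : Prop :=
  ∃ l : ℚ, l ≠ 0 ∧ aeval t a = l ^ 2 * W.c₄ ∧ aeval t b = l ^ 3 * W.c₆

theorem fv_congr2 (N : ℕ) (f : ℤ[X]) {m x x' y y' : ℤ} (h : m ∣ x - x') (h' : m ∣ y - y') :
    m ∣ fv N f x y - fv N f x' y' := by
  unfold fv
  rw [← sum_sub_distrib]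
  refine dvd_sum fun i _ => ?_
  have e : f.coeff i * x ^ i * y ^ (N - i) - f.coeff i * x' ^ i * y' ^ (N - i) =
      (x ^ i - x' ^ i) * (f.coeff i * y ^ (N - i)) +
      (y ^ (N - i) - y' ^ (N - i)) * (f.coeff i * x' ^ i) := by ring
  rw [e]
  exact dvd_add ((h.trans (sub_dvd_pow_sub_pow x x' i)).mul_right _)
    ((h'.trans (sub_dvd_pow_sub_pow y y' _)).mul_right _)

/-- the curves over the points congruent to a given one -/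
theorem exists_curve {e : ℕ} {a b : ℤ[X]} (hF : NoCommon e a b) (W₀ : WeierstrassCurve ℤ)
    (h₀ : Semistable W₀) (t₀ : ℚ) (hf : Fibre a b t₀ W₀) (Q : ℕ) (hQ : 1 ≤ Q) :
    ∃ (M K : ℕ) (ν : ℝ), 1 ≤ M ∧ 1 ≤ K ∧ 0 < ν ∧ ∀ x y : ℤ, IsCoprime x y → y ≠ 0 →
      (M : ℤ) ∣ x - t₀.num → (M : ℤ) ∣ y - t₀.den → fv (6 * e) (a ^ 3 - b ^ 2) x y ≠ 0 →
      ∃ W : WeierstrassCurve ℤ, W.a₁ = W₀.a₁ ∧ W.a₂ = W₀.a₂ ∧ W.a₃ = W₀.a₃ ∧
        (Q : ℤ) ∣ W.a₄ - W₀.a₄ ∧ (Q : ℤ) ∣ W.a₆ - W₀.a₆ ∧ Semistable W ∧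
        Fibre a b ((x : ℚ) / y) W ∧
        |(W.Δ : ℝ)| = ν * |(fv (6 * e) (a ^ 3 - b ^ 2) x y : ℝ)| ∧
        ∀ p : ℕ, p.Prime → (p : ℤ) ∣ W.Δ → p ∣ K ∨ (p : ℤ) ∣ fv (6 * e) (a ^ 3 - b ^ 2) x y := by
  obtain ⟨M₁, hM₁, hcopM⟩ := fam_cop hF
  obtain ⟨ha, hb, -, -⟩ := hF
  obtain ⟨l, hl, hla, hlb⟩ := hf
  have hden : ((t₀.den : ℤ) : ℚ) ≠ 0 := by exact_mod_cast t₀.den_ne_zero
  have hden' : (t₀.den : ℤ) ≠ 0 := by exact_mod_cast t₀.den_ne_zero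
  set μ : ℚ := l * (t₀.den : ℚ) ^ e with hμ
  have hμ0 : μ ≠ 0 := mul_ne_zero hl (pow_ne_zero _ (by exact_mod_cast t₀.den_ne_zero))
  set m₁ : ℤ := μ.num with hm₁
  set m₂ : ℤ := (μ.den : ℤ) with hm₂
  have hm₁0 : m₁ ≠ 0 := Rat.num_ne_zero.2 hμ0
  have hm₂0 : m₂ ≠ 0 := by rw [hm₂]; exact_mod_cast μ.den_ne_zero
  have hm₁Q : (m₁ : ℚ) ≠ 0 := by exact_mod_cast hm₁0
  have hm₂Q : (m₂ : ℚ) ≠ 0 := by exact_mod_cast hm₂0
  have hμe : μ = (m₁ : ℚ) / m₂ := by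
    rw [hm₁, hm₂]
    push_cast
    exact (Rat.num_div_den μ).symm
  have ht₀ : ((t₀.num : ℤ) : ℚ) / ((t₀.den : ℤ) : ℚ) = t₀ := by
    push_cast
    exact Rat.num_div_den t₀
  -- the values at the given point
  have hA0 : m₂ ^ 2 * fv (2 * e) a t₀.num t₀.den = m₁ ^ 2 * W₀.c₄ := by
    have : ((m₂ ^ 2 * fv (2 * e) a t₀.num t₀.den : ℤ) : ℚ) = ((m₁ ^ 2 * W₀.c₄ : ℤ) : ℚ) := by
      push_cast
      rw [fvq ha hden', ht₀, hla]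
      have e1 : (m₁ : ℚ) ^ 2 = m₂ ^ 2 * μ ^ 2 := by rw [hμe]; field_simp
      rw [e1, hμ]
      push_cast
      ring
    exact_mod_cast this
  have hB0 : m₂ ^ 3 * fv (3 * e) b t₀.num t₀.den = m₁ ^ 3 * W₀.c₆ := by
    have : ((m₂ ^ 3 * fv (3 * e) b t₀.num t₀.den : ℤ) : ℚ) = ((m₁ ^ 3 * W₀.c₆ : ℤ) : ℚ) := by
      push_cast
      rw [fvq hb hden', ht₀, hlb]
      have e1 : (m₁ : ℚ) ^ 3 = m₂ ^ 3 * μ ^ 3 := by rw [hμe]; field_simp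
      rw [e1, hμ]
      push_cast
      ring
    exact_mod_cast this
  set Q' : ℤ := Q * m₂ * M₁ with hQ'
  have hQ'0 : Q' ≠ 0 := by
    rw [hQ']
    refine mul_ne_zero (mul_ne_zero (by exact_mod_cast (by omega : Q ≠ 0)) hm₂0)
      (by exact_mod_cast (by omega : M₁ ≠ 0))
  set MM : ℤ := m₁ ^ 3 * 1728 * Q' with hMM
  have hMM0 : MM ≠ 0 := mul_ne_zero (mul_ne_zero (pow_ne_zero _ hm₁0) (by norm_num)) hQ'0
  have hνp : 0 < |((m₂ : ℝ) ^ 6) / (1728 * (m₁ : ℝ) ^ 6)| := by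
    apply abs_pos.2
    have h1 : (m₁ : ℝ) ≠ 0 := by exact_mod_cast hm₁0
    have h2 : (m₂ : ℝ) ≠ 0 := by exact_mod_cast hm₂0
    positivity
  refine ⟨MM.natAbs, m₂.natAbs, |((m₂ : ℝ) ^ 6) / (1728 * (m₁ : ℝ) ^ 6)|,
    Int.natAbs_pos.2 hMM0, Int.natAbs_pos.2 hm₂0, hνp, ?_⟩
  intro x y hxy hy hx hyy hne
  have hx' : MM ∣ x - t₀.num := Int.natAbs_dvd.1 hx
  have hy' : MM ∣ y - t₀.den := Int.natAbs_dvd.1 hyy
  obtain ⟨i, hi⟩ := fv_congr2 (2 * e) a hx' hy'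
  obtain ⟨j, hj⟩ := fv_congr2 (3 * e) b hx' hy'
  set A : ℤ := fv (2 * e) a x y with hA
  set B : ℤ := fv (3 * e) b x y with hB
  set tt : ℤ := m₂ ^ 2 * m₁ * Q' * i with htt
  set ww : ℤ := m₂ ^ 3 * Q' * j with hww
  have hc4 : m₂ ^ 2 * A = m₁ ^ 2 * (W₀.c₄ + 1728 * tt) := by
    rw [htt]
    linear_combination m₂ ^ 2 * hi + hA0 + m₂ ^ 2 * i * hMM
  have hc6 : m₂ ^ 3 * B = m₁ ^ 3 * (W₀.c₆ + 1728 * ww) := by
    rw [hww]
    linear_combination m₂ ^ 3 * hj + hB0 + m₂ ^ 3 * j * hMM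
  have hQt : (Q : ℤ) ∣ tt := by
    refine ⟨m₂ * M₁ * (m₂ ^ 2 * m₁ * i), ?_⟩
    rw [htt, hQ']
    ring
  have hQw : (Q : ℤ) ∣ ww := by
    refine ⟨m₂ * M₁ * (m₂ ^ 3 * j), ?_⟩
    rw [hww, hQ']
    ring
  set W := Pert W₀ tt ww with hW
  have hWc4 : W.c₄ = W₀.c₄ + 1728 * tt := Pert_c4 _ _ _
  have hWc6 : W.c₆ = W₀.c₆ + 1728 * ww := Pert_c6 _ _ _
  rw [← hWc4] at hc4
  rw [← hWc6] at hc6
  have hrel := W.c_relation
  have hyQ : (y : ℚ) ≠ 0 := by exact_mod_cast hy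
  have hFv : fv (6 * e) (a ^ 3 - b ^ 2) x y = A ^ 3 - B ^ 2 := by
    have hdeg : (a ^ 3 - b ^ 2).natDegree ≤ 6 * e := by
      refine (natDegree_sub_le _ _).trans (max_le ?_ ?_)
      · refine natDegree_pow_le.trans ?_
        omega
      · refine natDegree_pow_le.trans ?_
        omega
    have : ((fv (6 * e) (a ^ 3 - b ^ 2) x y : ℤ) : ℚ) = ((A ^ 3 - B ^ 2 : ℤ) : ℚ) := by
      push_cast
      rw [hA, hB, fvq hdeg hy, fvq ha hy, fvq hb hy, map_sub, map_pow, map_pow]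
      ring
    exact_mod_cast this
  have hDF : m₁ ^ 6 * (1728 * W.Δ) = m₂ ^ 6 * fv (6 * e) (a ^ 3 - b ^ 2) x y := by
    rw [hFv]
    linear_combination m₁ ^ 6 * hrel -
      (m₂ ^ 4 * A ^ 2 + m₂ ^ 2 * A * m₁ ^ 2 * W.c₄ + m₁ ^ 4 * W.c₄ ^ 2) * hc4 +
      (m₂ ^ 3 * B + m₁ ^ 3 * W.c₆) * hc6
  have hDne : W.Δ ≠ 0 := by
    intro h0
    rw [h0, mul_zero, mul_zero] at hDF
    exact mul_ne_zero (pow_ne_zero _ hm₂0) hne hDF.symm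
  have hQnat : ((Q'.natAbs : ℕ) : ℤ) ∣ Q' := Int.natAbs_dvd.2 dvd_rfl
  have hpertD : ((Q'.natAbs : ℕ) : ℤ) ∣ W.Δ - W₀.Δ := by
    refine Pert_D W₀ tt ww Q'.natAbs (hQnat.trans ⟨m₂ ^ 2 * m₁ * i, by rw [htt]; ring⟩)
      (hQnat.trans ⟨m₂ ^ 3 * j, by rw [hww]; ring⟩)
  have hpertD' : Q' ∣ W.Δ - W₀.Δ := Int.natAbs_dvd.1 hpertD
  have hss : Semistable W := by
    refine ⟨hDne, ?_⟩
    rw [Int.isCoprime_iff_gcd_eq_one]
    by_contra hg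
    obtain ⟨q, hq, hqd⟩ := Nat.exists_prime_and_dvd hg
    have hqI : Prime (q : ℤ) := Nat.prime_iff_prime_int.1 hq
    have h4 : (q : ℤ) ∣ W.c₄ := (Int.natCast_dvd_natCast.2 hqd).trans (Int.gcd_dvd_left _ _)
    have hD : (q : ℤ) ∣ W.Δ := (Int.natCast_dvd_natCast.2 hqd).trans (Int.gcd_dvd_right _ _)
    by_cases hqQ : (q : ℤ) ∣ Q'
    · have h5 : (q : ℤ) ∣ W₀.c₄ := by
        have e1 : W₀.c₄ = W.c₄ - Q' * (1728 * (m₂ ^ 2 * m₁ * i)) := by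
          rw [hWc4, htt]; ring
        rw [e1]
        exact dvd_sub h4 (hqQ.mul_right _)
      have h6 : (q : ℤ) ∣ W₀.Δ := by
        have h7 := dvd_sub hD (hqQ.trans hpertD')
        rwa [sub_sub_cancel] at h7
      exact hqI.not_isUnit (h₀.2.isUnit_of_dvd' h5 h6)
    · have hq2 : ¬ (q : ℤ) ∣ m₂ := fun h => hqQ ((h.mul_left _).mul_right _)
      have hqA : (q : ℤ) ∣ A := by
        have h5 : (q : ℤ) ∣ m₂ ^ 2 * A := by rw [hc4]; exact h4.mul_left _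
        exact (hqI.dvd_or_dvd h5).resolve_left fun h => hq2 (hqI.dvd_of_dvd_pow h)
      have hq6 : (q : ℤ) ∣ W.c₆ := by
        have h5 : (q : ℤ) ∣ W.c₆ ^ 2 := by
          have e1 : W.c₆ ^ 2 = W.c₄ ^ 3 - 1728 * W.Δ := by linear_combination hrel
          rw [e1]
          exact dvd_sub (dvd_pow h4 (by norm_num)) (hD.mul_left _)
        exact hqI.dvd_of_dvd_pow h5
      have hqB : (q : ℤ) ∣ B := by
        have h5 : (q : ℤ) ∣ m₂ ^ 3 * B := by rw [hc6]; exact hq6.mul_left _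
        exact (hqI.dvd_or_dvd h5).resolve_left fun h => hq2 (hqI.dvd_of_dvd_pow h)
      have h5 := hcopM x y hxy hy q hq hqA hqB
      exact hqQ ((Int.natCast_dvd_natCast.2 h5).mul_left _)
  refine ⟨W, rfl, rfl, rfl, ?_, ?_, hss, ?_, ?_, ?_⟩
  · have e1 : W.a₄ - W₀.a₄ = tt * (-36) := by simp only [hW, Pert]; ring
    rw [e1]
    exact hQt.mul_right _
  · have e1 : W.a₆ - W₀.a₆ = tt * (-3 * W₀.b₂) + ww * (-2) := by simp only [hW, Pert]; ring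
    rw [e1]
    exact dvd_add (hQt.mul_right _) (hQw.mul_right _)
  · refine ⟨μ / (y : ℚ) ^ e, div_ne_zero hμ0 (pow_ne_zero _ hyQ), ?_, ?_⟩
    · have e1 : (A : ℚ) = (y : ℚ) ^ (2 * e) * aeval ((x : ℚ) / y) a := by rw [hA]; exact fvq ha hy
      have e2 : (m₂ : ℚ) ^ 2 * A = m₁ ^ 2 * W.c₄ := by exact_mod_cast hc4
      have e3 : (A : ℚ) = μ ^ 2 * W.c₄ := by
        rw [hμe]
        field_simp
        linear_combination e2
      have hy2 : (y : ℚ) ^ (2 * e) ≠ 0 := pow_ne_zero _ hyQ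
      rw [div_pow, ← pow_mul, mul_comm e 2, div_mul_eq_mul_div, eq_div_iff hy2, ← e3, e1]
      ring
    · have e1 : (B : ℚ) = (y : ℚ) ^ (3 * e) * aeval ((x : ℚ) / y) b := by rw [hB]; exact fvq hb hy
      have e2 : (m₂ : ℚ) ^ 3 * B = m₁ ^ 3 * W.c₆ := by exact_mod_cast hc6
      have e3 : (B : ℚ) = μ ^ 3 * W.c₆ := by
        rw [hμe]
        field_simp
        linear_combination e2
      have hy2 : (y : ℚ) ^ (3 * e) ≠ 0 := pow_ne_zero _ hyQ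
      rw [div_pow, ← pow_mul, mul_comm e 3, div_mul_eq_mul_div, eq_div_iff hy2, ← e3, e1]
      ring
  · have e1 : (m₁ : ℝ) ^ 6 * (1728 * W.Δ) = m₂ ^ 6 * (fv (6 * e) (a ^ 3 - b ^ 2) x y : ℝ) := by
      exact_mod_cast hDF
    have h1 : (m₁ : ℝ) ≠ 0 := by exact_mod_cast hm₁0
    rw [← abs_mul]
    congr 1
    field_simp
    linear_combination e1
  · intro p hp hpD
    have hpI : Prime (p : ℤ) := Nat.prime_iff_prime_int.1 hp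
    have h1 : (p : ℤ) ∣ m₂ ^ 6 * fv (6 * e) (a ^ 3 - b ^ 2) x y := by
      rw [← hDF]
      exact (hpD.mul_left _).mul_left _
    rcases hpI.dvd_or_dvd h1 with h2 | h2
    · left
      exact Int.natCast_dvd.1 (hpI.dvd_of_dvd_pow h2)
    · exact Or.inr h2

end Pool.Agent.H461.Fam
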