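import Pool.Agent.H461.Fam.Sup

/-!
# The forms of a family
-/

set_option autoImplicit false

namespace Pool.Agent.H461.Fam

open Finset Polynomial
open Pool.Agent.Y670.RD

theorem aeval_map (f : ℤ[X]) (t : ℚ) : aeval t f = (f.map (Int.castRingHom ℚ)).eval t := by
  rw [eval_map, aeval_def]
  rfl

/-- the squarefree part -/
theorem exists_sqf (f : ℤ[X]) (hf : f ≠ 0) : ∃ (g h h' : ℤ[X]) (m : ℕ) (k k' : ℤ), k ≠ 0 ∧ k' ≠ 0 ∧
    Squarefree (g.map (Int.castRingHom ℚ)) ∧ g.natDegree = (f.rootSet ℂ).ncard ∧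
    C k * g ^ m = f * h ∧ C k' * f = g * h' := by
  classical
  set F := f.map (Int.castRingHom ℚ) with hF
  have hF0 : F ≠ 0 := (Polynomial.map_ne_zero_iff Int.cast_injective).2 hf
  set R := UniqueFactorizationMonoid.radical F with hR
  have hRF : R ∣ F := UniqueFactorizationMonoid.radical_dvd_self
  have hR0 : R ≠ 0 := ne_zero_of_dvd_ne_zero hF0 hRF
  have hsq : Squarefree R := UniqueFactorizationMonoid.squarefree_radical
  obtain ⟨m, hm⟩ := (UniqueFactorizationMonoid.exists_dvd_pow_iff_radical_dvd (b := R) hF0).2 dvd_rfl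
  obtain ⟨w, hw⟩ := hm
  obtain ⟨w', hw'⟩ := hRF
  obtain ⟨c, g, hc, hg⟩ := clear R
  obtain ⟨d, h, hd, hh⟩ := clear w
  obtain ⟨d', h', hd', hh'⟩ := clear w'
  have hcQ : (c : ℚ) ≠ 0 := by exact_mod_cast hc
  have hgd : g.natDegree = R.natDegree := by
    rw [← natDegree_map_eq_of_injective (f := Int.castRingHom ℚ) Int.cast_injective g, hg,
      natDegree_C_mul hcQ]
  have hinj : Function.Injective (Int.castRingHom ℚ) := Int.cast_injective
  refine ⟨g, C (c ^ m) * h, h', m, d, c * d', hd, mul_ne_zero hc hd', ?_, ?_, ?_, ?_⟩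
  · rw [hg]
    have hassoc : Associated R (C (c : ℚ) * R) :=
      ⟨Units.mk (C (c : ℚ)) (C (c : ℚ)⁻¹) (by rw [← C_mul, mul_inv_cancel₀ hcQ, C_1])
        (by rw [← C_mul, inv_mul_cancel₀ hcQ, C_1]), by simp [mul_comm]⟩
    exact (hassoc.squarefree_iff).1 hsq
  · have hsep : R.Separable := (PerfectField.separable_iff_squarefree).2 hsq
    have h1 := card_rootSet_eq_natDegree (K := ℂ) hsep (IsAlgClosed.splits _)
    rw [hgd, ← h1, ← Nat.card_eq_fintype_card, Nat.card_coe_set_eq]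
    have h2 : R.rootSet ℂ = f.rootSet ℂ := by
      ext z
      rw [mem_rootSet, mem_rootSet]
      have e : aeval z F = aeval z f := by
        rw [hF]
        exact aeval_map_algebraMap (A := ℚ) z f
      constructor
      · rintro ⟨-, h3⟩
        refine ⟨hf, ?_⟩
        rw [← e, hw', map_mul, h3, zero_mul]
      · rintro ⟨-, h3⟩
        refine ⟨hR0, ?_⟩
        have h4 : aeval z (R ^ m) = 0 := by rw [hw, map_mul, e, h3, zero_mul]
        rw [map_pow] at h4
        exact eq_zero_of_pow_eq_zero h4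
    rw [h2]
  · apply map_injective (Int.castRingHom ℚ) hinj
    rw [Polynomial.map_mul, Polynomial.map_mul, Polynomial.map_mul, Polynomial.map_pow, map_C, map_C,
      hg, hh, mul_pow, hw, ← hF]
    simp only [eq_intCast, Int.cast_pow, C_pow]
    ring
  · apply map_injective (Int.castRingHom ℚ) hinj
    rw [Polynomial.map_mul, Polynomial.map_mul, map_C, hg, hh', ← hF, hw']
    simp only [eq_intCast, Int.cast_mul, C_mul]
    ring

/-- the primes dividing the values of a form divide the values of the squarefree part -/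
theorem prime_fv {f g h : ℤ[X]} {m : ℕ} {k : ℤ} (hk : k ≠ 0) (hf : f ≠ 0) (hg : g ≠ 0)
    (hfh : C k * g ^ m = f * h) (N : ℕ) (hN : f.natDegree ≤ N) (x y : ℤ) (hy : y ≠ 0) (q : ℕ)
    (hq : q.Prime) (hqd : (q : ℤ) ∣ fv N f x y) :
    (q : ℤ) ∣ k ∨ (f.natDegree < N ∧ (q : ℤ) ∣ y) ∨ (q : ℤ) ∣ fv g.natDegree g x y := by
  have hqI : Prime (q : ℤ) := Nat.prime_iff_prime_int.1 hq
  have hyQ : (y : ℚ) ≠ 0 := by exact_mod_cast hy
  have hh0 : h ≠ 0 := by
    rintro rfl
    rw [mul_zero] at hfh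
    exact mul_ne_zero (C_ne_zero.2 hk) (pow_ne_zero _ hg) hfh
  have hdeg : m * g.natDegree = f.natDegree + h.natDegree := by
    rw [← natDegree_mul hf hh0, ← hfh, natDegree_C_mul hk, natDegree_pow]
  have h1 : fv N f x y = y ^ (N - f.natDegree) * fv f.natDegree f x y := by
    have : ((fv N f x y : ℤ) : ℚ) = ((y ^ (N - f.natDegree) * fv f.natDegree f x y : ℤ) : ℚ) := by
      push_cast
      rw [fvq hN hy, fvq le_rfl hy, ← mul_assoc, ← pow_add]
      congr 2
      omega
    exact_mod_cast this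
  have h2 : k * fv g.natDegree g x y ^ m = fv f.natDegree f x y * fv h.natDegree h x y := by
    have : ((k * fv g.natDegree g x y ^ m : ℤ) : ℚ) =
        ((fv f.natDegree f x y * fv h.natDegree h x y : ℤ) : ℚ) := by
      push_cast
      rw [fvq le_rfl hy, fvq le_rfl hy, fvq le_rfl hy]
      have e := congrArg (aeval ((x : ℚ) / y)) hfh
      rw [map_mul, map_mul, map_pow, aeval_C] at e
      have e2 : (algebraMap ℤ ℚ) k = k := rfl
      rw [e2] at e
      calc (k : ℚ) * ((y : ℚ) ^ g.natDegree * aeval ((x : ℚ) / y) g) ^ m =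
          (y : ℚ) ^ (m * g.natDegree) * (k * aeval ((x : ℚ) / y) g ^ m) := by
            rw [mul_pow, ← pow_mul, mul_comm g.natDegree m]; ring
        _ = _ := by rw [e, hdeg, pow_add]; ring
    exact_mod_cast this
  rw [h1] at hqd
  rcases hqI.dvd_or_dvd hqd with h3 | h3
  · right; left
    constructor
    · by_contra hcon
      have : N - f.natDegree = 0 := by omega
      rw [this, pow_zero] at h3
      exact hqI.not_dvd_one h3
    · exact hqI.dvd_of_dvd_pow h3
  · have h4 : (q : ℤ) ∣ k * fv g.natDegree g x y ^ m := by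
      rw [h2]
      exact h3.mul_right _
    rcases hqI.dvd_or_dvd h4 with h5 | h5
    · exact Or.inl h5
    · exact Or.inr (Or.inr (hqI.dvd_of_dvd_pow h5))

/-- the forms have no common zero -/
def NoCommon (e : ℕ) (a b : ℤ[X]) : Prop :=
  a.natDegree ≤ 2 * e ∧ b.natDegree ≤ 3 * e ∧
    IsCoprime (a.map (Int.castRingHom ℚ)) (b.map (Int.castRingHom ℚ)) ∧
    (a.coeff (2 * e) ≠ 0 ∨ b.coeff (3 * e) ≠ 0)

/-- common prime divisors of the values -/
theorem fam_cop {e : ℕ} {a b : ℤ[X]} (h : NoCommon e a b) : ∃ M : ℕ, 1 ≤ M ∧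
    ∀ x y : ℤ, IsCoprime x y → y ≠ 0 → ∀ q : ℕ, q.Prime → (q : ℤ) ∣ fv (2 * e) a x y →
      (q : ℤ) ∣ fv (3 * e) b x y → q ∣ M := by
  obtain ⟨ha, hb, hcop, hinf⟩ := h
  obtain ⟨u, v, huv⟩ := hcop
  obtain ⟨c, U, hc, hU⟩ := clear u
  obtain ⟨d, V, hd, hV⟩ := clear v
  have key : C d * U * a + C c * V * b = C (c * d) := by
    apply map_injective (Int.castRingHom ℚ) Int.cast_injective
    rw [Polynomial.map_add, Polynomial.map_mul, Polynomial.map_mul, Polynomial.map_mul,
      Polynomial.map_mul, map_C, map_C, map_C, hU, hV]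
    have e : C ((Int.castRingHom ℚ) d) * (C (c : ℚ) * u) * a.map (Int.castRingHom ℚ) +
        C ((Int.castRingHom ℚ) c) * (C (d : ℚ) * v) * b.map (Int.castRingHom ℚ) =
        C ((Int.castRingHom ℚ) (c * d)) * (u * a.map (Int.castRingHom ℚ) +
          v * b.map (Int.castRingHom ℚ)) := by
      simp only [eq_intCast, Int.cast_mul, C_mul]
      ring
    rw [e, huv, mul_one]
  set l : ℤ := if a.coeff (2 * e) ≠ 0 then a.coeff (2 * e) else b.coeff (3 * e) with hl
  have hl0 : l ≠ 0 := by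
    rw [hl]
    split_ifs with h1
    · exact h1
    · exact hinf.resolve_left h1
  refine ⟨(c * d * l).natAbs, Int.natAbs_pos.2 (mul_ne_zero (mul_ne_zero hc hd) hl0), ?_⟩
  intro x y hxy hy q hq h1 h2
  have hqI : Prime (q : ℤ) := Nat.prime_iff_prime_int.1 hq
  rw [← Int.natCast_dvd]
  set K := max U.natDegree V.natDegree with hK
  have hid : d * fv K U x y * (y ^ (3 * e) * fv (2 * e) a x y) +
      c * fv K V x y * (y ^ (2 * e) * fv (3 * e) b x y) = c * d * y ^ (K + 5 * e) := by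
    have hyQ : (y : ℚ) ≠ 0 := by exact_mod_cast hy
    have : ((d * fv K U x y * (y ^ (3 * e) * fv (2 * e) a x y) +
      c * fv K V x y * (y ^ (2 * e) * fv (3 * e) b x y) : ℤ) : ℚ) = ((c * d * y ^ (K + 5 * e) : ℤ) : ℚ) := by
      push_cast
      rw [fvq (le_max_left _ _) hy, fvq (le_max_right _ _) hy, fvq ha hy, fvq hb hy]
      have e1 := congrArg (aeval ((x : ℚ) / y)) key
      simp only [map_mul, map_add, aeval_C] at e1
      have e2 : (algebraMap ℤ ℚ) d = d := rfl
      have e3 : (algebraMap ℤ ℚ) c = c := rfl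
      rw [e2, e3] at e1
      have e4 : (y : ℚ) ^ (K + 5 * e) = (y : ℚ) ^ K * ((y : ℚ) ^ (2 * e) * (y : ℚ) ^ (3 * e)) := by
        rw [← pow_add, ← pow_add]; congr 1; ring
      rw [e4]
      linear_combination ((y : ℚ) ^ K * ((y : ℚ) ^ (2 * e) * (y : ℚ) ^ (3 * e))) * e1
    exact_mod_cast this
  have h3 : (q : ℤ) ∣ c * d * y ^ (K + 5 * e) := by
    rw [← hid]
    exact dvd_add ((h1.mul_left _).mul_left _) ((h2.mul_left _).mul_left _)
  rcases hqI.dvd_or_dvd h3 with h4 | h4
  · exact h4.mul_right _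
  · have h5 : (q : ℤ) ∣ y := hqI.dvd_of_dvd_pow h4
    have h6 : ¬ (q : ℤ) ∣ x := fun h7 => hqI.not_isUnit (hxy.isUnit_of_dvd' h7 h5)
    have h8 : ∀ (N : ℕ) (f : ℤ[X]), (q : ℤ) ∣ fv N f x y → (q : ℤ) ∣ f.coeff N := by
      intro N f hf
      have h9 := h5.trans (fv_mod N f x y)
      have h10 := dvd_sub hf h9
      rw [sub_sub_cancel] at h10
      rcases hqI.dvd_or_dvd h10 with h11 | h11
      · exact h11
      · exact absurd (hqI.dvd_of_dvd_pow h11) h6
    have h12 : (q : ℤ) ∣ l := by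
      rw [hl]
      split_ifs
      · exact h8 _ _ h1
      · exact h8 _ _ h2
    exact h12.mul_left _

end Pool.Agent.H461.Fam
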