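import Pool.Agent.H461.Fam.Crv

/-!
# Auxiliary facts: classes of residues, conductors, multiplicities, continuity
-/

set_option autoImplicit false

namespace Pool.Agent.H461.Fam

open Finset Polynomial
open Pool.Agent.Y670.RD

/-- the class of residues -/
theorem exists_class (M P D : ℕ) (hMP : P.Coprime M)
    (hD : ∀ p : ℕ, p.Prime → p ∣ D → p ∣ P) (ρ u₀ v₀ : ℤ) (huv : IsCoprime u₀ v₀) :
    ∃ zs ys : ℤ, (∀ p : ℕ, p.Prime → p ∣ M * P → ¬ ((p : ℤ) ∣ zs ∧ (p : ℤ) ∣ ys)) ∧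
      ∀ x y z : ℤ, x = D * z + ρ * y → IsCoprime z y → ((M * P : ℕ) : ℤ) ∣ z - zs →
        ((M * P : ℕ) : ℤ) ∣ y - ys → IsCoprime x y ∧ (M : ℤ) ∣ x - u₀ ∧ (M : ℤ) ∣ y - v₀ := by
  have hDM : Nat.Coprime D M := by
    rw [Nat.coprime_iff_gcd_eq_one]
    by_contra hg
    obtain ⟨q, hq, hqd⟩ := Nat.exists_prime_and_dvd hg
    have h1 := hD q hq (hqd.trans (Nat.gcd_dvd_left _ _))
    have h2 := hqd.trans (Nat.gcd_dvd_right _ _)
    have h3 := Nat.dvd_gcd h1 h2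
    rw [hMP] at h3
    exact hq.one_lt.ne' (Nat.dvd_one.1 h3)
  obtain ⟨c, d, hcd⟩ : IsCoprime (P : ℤ) (M : ℤ) := Nat.isCoprime_iff_coprime.2 hMP
  obtain ⟨c', d', hcd'⟩ : IsCoprime (D : ℤ) (M : ℤ) := Nat.isCoprime_iff_coprime.2 hDM
  set ys : ℤ := v₀ * (c * P) + 1 * (d * M) with hys
  set zs : ℤ := c' * (u₀ - ρ * ys) with hzs
  have hysM : (M : ℤ) ∣ ys - v₀ := ⟨d - v₀ * d, by rw [hys]; linear_combination v₀ * hcd⟩
  have hysP : (P : ℤ) ∣ ys - 1 := ⟨v₀ * c - c, by rw [hys]; linear_combination hcd⟩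
  have hzsM : (M : ℤ) ∣ D * zs + ρ * ys - u₀ :=
    ⟨-(d' * (u₀ - ρ * ys)), by rw [hzs]; linear_combination (u₀ - ρ * ys) * hcd'⟩
  refine ⟨zs, ys, ?_, ?_⟩
  · rintro p hp hpL ⟨h1, h2⟩
    have hpI : Prime (p : ℤ) := Nat.prime_iff_prime_int.1 hp
    rcases (Nat.Prime.dvd_mul hp).1 hpL with h | h
    · have hM : (p : ℤ) ∣ (M : ℤ) := Int.natCast_dvd_natCast.2 h
      have h3 : (p : ℤ) ∣ u₀ := by
        have h4 := dvd_sub (dvd_add (h1.mul_left (D : ℤ)) (h2.mul_left ρ)) (hM.trans hzsM)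
        rwa [sub_sub_cancel] at h4
      have h4 : (p : ℤ) ∣ v₀ := by
        have h5 := dvd_sub h2 (hM.trans hysM)
        rwa [sub_sub_cancel] at h5
      exact hpI.not_isUnit (huv.isUnit_of_dvd' h3 h4)
    · have hP : (p : ℤ) ∣ (P : ℤ) := Int.natCast_dvd_natCast.2 h
      have h4 := dvd_sub h2 (hP.trans hysP)
      rw [sub_sub_cancel] at h4
      exact hpI.not_dvd_one h4
  · intro x y z hx hzy hz hy
    have hML : (M : ℤ) ∣ ((M * P : ℕ) : ℤ) := by push_cast; exact dvd_mul_right _ _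
    have hPL : (P : ℤ) ∣ ((M * P : ℕ) : ℤ) := by push_cast; exact dvd_mul_left _ _
    have hyM : (M : ℤ) ∣ y - v₀ := by
      have := dvd_add (hML.trans hy) hysM
      rwa [sub_add_sub_cancel] at this
    have hyP : (P : ℤ) ∣ y - 1 := by
      have := dvd_add (hPL.trans hy) hysP
      rwa [sub_add_sub_cancel] at this
    refine ⟨?_, ?_, hyM⟩
    · rw [Int.isCoprime_iff_gcd_eq_one]
      by_contra hg
      obtain ⟨q, hq, hqd⟩ := Nat.exists_prime_and_dvd hg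
      have hqI : Prime (q : ℤ) := Nat.prime_iff_prime_int.1 hq
      have h1 : (q : ℤ) ∣ x := (Int.natCast_dvd_natCast.2 hqd).trans (Int.gcd_dvd_left _ _)
      have h2 : (q : ℤ) ∣ y := (Int.natCast_dvd_natCast.2 hqd).trans (Int.gcd_dvd_right _ _)
      have h3 : (q : ℤ) ∣ D * z := by
        rw [hx] at h1
        exact (dvd_add_left (h2.mul_left ρ)).1 h1
      rcases hqI.dvd_or_dvd h3 with h4 | h4
      · have h5 : q ∣ P := hD q hq (by exact_mod_cast h4)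
        have h6 : (q : ℤ) ∣ (P : ℤ) := Int.natCast_dvd_natCast.2 h5
        have h7 := dvd_sub h2 (h6.trans hyP)
        rw [sub_sub_cancel] at h7
        exact hqI.not_dvd_one h7
      · exact hqI.not_isUnit (hzy.isUnit_of_dvd' h4 h2)
    · have h1 : x - u₀ = D * (z - zs) + ρ * (y - ys) + (D * zs + ρ * ys - u₀) := by rw [hx]; ring
      rw [h1]
      exact dvd_add (dvd_add ((hML.trans hz).mul_left _) ((hML.trans hy).mul_left _)) hzsM

theorem prod_primes_le (s t : Finset ℕ) (h : s ⊆ t) (ht : ∀ p ∈ t, 1 ≤ p) :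
    ∏ p ∈ s, p ≤ ∏ p ∈ t, p :=
  prod_le_prod_of_subset_of_one_le' h fun p hp _ => ht p hp

theorem rad_le (n : ℕ) (hn : n ≠ 0) : ∏ p ∈ n.primeFactors, p ≤ n :=
  Nat.le_of_dvd (by omega) (Nat.prod_primeFactors_dvd n)

/-- a bound for the conductor -/
theorem cond_le (W : WeierstrassCurve ℤ) (K k P D y G : ℤ) (hK : K ≠ 0) (hk : k ≠ 0) (hP : P ≠ 0)
    (hy : y ≠ 0) (hG : G ≠ 0) (hDG : D ∣ G) (hDP : ∀ p : ℕ, p.Prime → (p : ℤ) ∣ D → (p : ℤ) ∣ P)
    (δ : ℕ) (h : ∀ p : ℕ, p.Prime → (p : ℤ) ∣ W.Δ → (p : ℤ) ∣ K ∨ (p : ℤ) ∣ k ∨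
      (δ = 1 ∧ (p : ℤ) ∣ y) ∨ (p : ℤ) ∣ G) :
    (cond W : ℝ) * |(D : ℝ)| ≤ |(K : ℝ)| * |(k : ℝ)| * |(y : ℝ)| ^ δ * |(P : ℝ)| * |(G : ℝ)| := by
  classical
  obtain ⟨w, hw⟩ := hDG
  have hD0 : D ≠ 0 := by
    rintro rfl
    rw [zero_mul] at hw
    exact hG hw
  have hw0 : w ≠ 0 := by
    rintro rfl
    rw [mul_zero] at hw
    exact hG hw
  set n : ℤ := K * k * y ^ δ * P * w with hn
  have hn0 : n ≠ 0 := mul_ne_zero (mul_ne_zero (mul_ne_zero (mul_ne_zero hK hk) (pow_ne_zero _ hy)) hP) hw0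
  have hsub : W.Δ.natAbs.primeFactors ⊆ n.natAbs.primeFactors := by
    intro p hp
    rw [Nat.mem_primeFactors] at hp ⊢
    refine ⟨hp.1, ?_, Int.natAbs_ne_zero.2 hn0⟩
    have hpI : Prime (p : ℤ) := Nat.prime_iff_prime_int.1 hp.1
    rw [← Int.natCast_dvd]
    have h1 : (p : ℤ) ∣ W.Δ := Int.natCast_dvd.2 hp.2.1
    rcases h p hp.1 h1 with h2 | h2 | ⟨h2, h3⟩ | h2
    · rw [hn]
      exact (((h2.mul_right _).mul_right _).mul_right _).mul_right _
    · rw [hn]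
      exact (((h2.mul_left _).mul_right _).mul_right _).mul_right _
    · rw [hn, h2, pow_one]
      exact ((h3.mul_left _).mul_right _).mul_right _
    · rw [hw] at h2
      rcases hpI.dvd_or_dvd h2 with h4 | h4
      · rw [hn]
        exact ((hDP p hp.1 h4).mul_left _).mul_right _
      · rw [hn]
        exact h4.mul_left _
  have h1 : cond W ≤ n.natAbs := by
    refine (prod_primes_le _ _ hsub fun p hp => (Nat.prime_of_mem_primeFactors hp).one_lt.le).trans ?_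
    exact rad_le _ (Int.natAbs_ne_zero.2 hn0)
  have h2 : (cond W : ℝ) ≤ |(n : ℝ)| := by
    have : (cond W : ℝ) ≤ (n.natAbs : ℝ) := by exact_mod_cast h1
    rwa [Nat.cast_natAbs, Int.cast_abs] at this
  calc (cond W : ℝ) * |(D : ℝ)| ≤ |(n : ℝ)| * |(D : ℝ)| := mul_le_mul_of_nonneg_right h2 (abs_nonneg _)
    _ = _ := by
      rw [hn, hw]
      push_cast
      rw [abs_mul, abs_mul, abs_mul, abs_mul, abs_mul, abs_pow]
      ring

/-- the polynomial whose roots are the points with given invariants -/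
theorem mult_bound {e : ℕ} (he : 1 ≤ e) {a b : ℤ[X]} (hF : NoCommon e a b) (c4 c6 : ℤ)
    (h : c4 ≠ 0 ∨ c6 ≠ 0) (T : Finset ℚ)
    (hT : ∀ t ∈ T, ∃ l : ℚ, l ≠ 0 ∧ aeval t a = l ^ 2 * c4 ∧ aeval t b = l ^ 3 * c6) :
    T.card ≤ 6 * e := by
  classical
  obtain ⟨ha, hb, hcop, hinf⟩ := hF
  set A := a.map (Int.castRingHom ℚ) with hA
  set B := b.map (Int.castRingHom ℚ) with hB
  set H : ℚ[X] := C ((c6 : ℚ) ^ 2) * A ^ 3 - C ((c4 : ℚ) ^ 3) * B ^ 2 with hH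
  have hdegA : A.natDegree ≤ 2 * e := natDegree_map_le.trans ha
  have hdegB : B.natDegree ≤ 3 * e := natDegree_map_le.trans hb
  have hHd : H.natDegree ≤ 6 * e := by
    refine (natDegree_sub_le _ _).trans (max_le ?_ ?_)
    · refine (natDegree_C_mul_le _ _).trans (natDegree_pow_le.trans ?_)
      omega
    · refine (natDegree_C_mul_le _ _).trans (natDegree_pow_le.trans ?_)
      omega
  have hH0 : H ≠ 0 := by
    intro h0
    have h1 : C ((c6 : ℚ) ^ 2) * A ^ 3 = C ((c4 : ℚ) ^ 3) * B ^ 2 := sub_eq_zero.1 h0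
    have hcop' : IsCoprime (A ^ 3) (B ^ 2) := hcop.pow
    have hA0 : A.natDegree = 0 := by
      by_cases h4 : (c4 : ℚ) = 0
      · have h6 : (c6 : ℚ) ≠ 0 := by
          intro h6
          rcases h with h | h
          · exact h (by exact_mod_cast h4)
          · exact h (by exact_mod_cast h6)
        rw [h4] at h1
        have h2 : C ((c6 : ℚ) ^ 2) * A ^ 3 = 0 := by rw [h1]; simp
        have h3 : A ^ 3 = 0 := (mul_eq_zero.1 h2).resolve_left (C_ne_zero.2 (pow_ne_zero _ h6))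
        rw [eq_zero_of_pow_eq_zero h3, natDegree_zero]
      · have h2 : A ^ 3 ∣ C ((c4 : ℚ) ^ 3) := by
          refine hcop'.dvd_of_dvd_mul_right ?_
          rw [← h1]
          exact dvd_mul_left _ _
        have h3 : IsUnit (A ^ 3) := isUnit_of_dvd_unit h2 (isUnit_C.2 (isUnit_iff_ne_zero.2 (pow_ne_zero _ h4)))
        exact natDegree_eq_zero_of_isUnit (isUnit_pow_iff (by norm_num) |>.1 h3)
    have hB0 : B.natDegree = 0 := by
      by_cases h6 : (c6 : ℚ) = 0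
      · have h4 : (c4 : ℚ) ≠ 0 := by
          intro h4
          rcases h with h | h
          · exact h (by exact_mod_cast h4)
          · exact h (by exact_mod_cast h6)
        rw [h6] at h1
        have h2 : C ((c4 : ℚ) ^ 3) * B ^ 2 = 0 := by rw [← h1]; simp
        have h3 : B ^ 2 = 0 := (mul_eq_zero.1 h2).resolve_left (C_ne_zero.2 (pow_ne_zero _ h4))
        rw [eq_zero_of_pow_eq_zero h3, natDegree_zero]
      · have h2 : B ^ 2 ∣ C ((c6 : ℚ) ^ 2) := by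
          refine hcop'.symm.dvd_of_dvd_mul_right ?_
          rw [h1]
          exact dvd_mul_left _ _
        have h3 : IsUnit (B ^ 2) := isUnit_of_dvd_unit h2 (isUnit_C.2 (isUnit_iff_ne_zero.2 (pow_ne_zero _ h6)))
        exact natDegree_eq_zero_of_isUnit (isUnit_pow_iff (by norm_num) |>.1 h3)
    have hA1 : a.natDegree = 0 := by
      rw [← hA0, hA]
      exact (natDegree_map_eq_of_injective Int.cast_injective a).symm
    have hB1 : b.natDegree = 0 := by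
      rw [← hB0, hB]
      exact (natDegree_map_eq_of_injective Int.cast_injective b).symm
    rcases hinf with h2 | h2
    · exact h2 (coeff_eq_zero_of_natDegree_lt (by omega))
    · exact h2 (coeff_eq_zero_of_natDegree_lt (by omega))
  have hsub : T ⊆ H.roots.toFinset := by
    intro t ht
    rw [Multiset.mem_toFinset, mem_roots hH0, IsRoot.def, hH]
    obtain ⟨l, -, h1, h2⟩ := hT t ht
    rw [eval_sub, eval_mul, eval_mul, eval_pow, eval_pow, eval_C, eval_C, ← aeval_map, ← aeval_map,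
      h1, h2]
    ring
  calc T.card ≤ H.roots.toFinset.card := card_le_card hsub
    _ ≤ Multiset.card H.roots := Multiset.toFinset_card_le _
    _ ≤ H.natDegree := card_roots' _
    _ ≤ 6 * e := hHd

theorem fibre_rel {a b : ℤ[X]} {t : ℚ} {W : WeierstrassCurve ℤ} (hW : W.Δ ≠ 0) (h : Fibre a b t W) :
    aeval (t : ℝ) (a ^ 3 - b ^ 2) ≠ 0 ∧
    (W.c₄ : ℝ) ^ 3 / W.Δ = 1728 * aeval (t : ℝ) a ^ 3 / aeval (t : ℝ) (a ^ 3 - b ^ 2) := by
  obtain ⟨l, hl, h1, h2⟩ := h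
  have hcast : ∀ f : ℤ[X], aeval (t : ℝ) f = ((aeval t f : ℚ) : ℝ) := by
    intro f
    have := aeval_algebraMap_apply (A := ℚ) ℝ t f
    simpa using this
  have hlR : (l : ℝ) ≠ 0 := by exact_mod_cast hl
  have hWR : (W.Δ : ℝ) ≠ 0 := by exact_mod_cast hW
  have hrel : (1728 : ℝ) * W.Δ = (W.c₄ : ℝ) ^ 3 - (W.c₆ : ℝ) ^ 2 := by exact_mod_cast W.c_relation
  have e1 : aeval (t : ℝ) a = (l : ℝ) ^ 2 * W.c₄ := by rw [hcast, h1]; push_cast; ring
  have e2 : aeval (t : ℝ) b = (l : ℝ) ^ 3 * W.c₆ := by rw [hcast, h2]; push_cast; ring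
  have e3 : aeval (t : ℝ) (a ^ 3 - b ^ 2) = (l : ℝ) ^ 6 * (1728 * W.Δ) := by
    rw [map_sub, map_pow, map_pow, e1, e2, hrel]
    ring
  refine ⟨by rw [e3]; positivity, ?_⟩
  rw [e3, e1]
  field_simp

/-- continuity -/
theorem near_t {a b : ℤ[X]} {t₀ : ℝ} (h : aeval t₀ (a ^ 3 - b ^ 2) ≠ 0) (η : ℝ) (hη : 0 < η) :
    ∃ η₁ : ℝ, 0 < η₁ ∧ η₁ ≤ η ∧ ∀ t : ℝ, |t - t₀| < η₁ →
      |aeval t₀ (a ^ 3 - b ^ 2)| / 2 ≤ |aeval t (a ^ 3 - b ^ 2)| ∧
      |1728 * aeval t a ^ 3 / aeval t (a ^ 3 - b ^ 2) -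
        1728 * aeval t₀ a ^ 3 / aeval t₀ (a ^ 3 - b ^ 2)| < η := by
  have hc : ∀ f : ℤ[X], Continuous fun t : ℝ => aeval t f := fun f => f.continuous_aeval
  have h1 : ContinuousAt (fun t : ℝ => |aeval t (a ^ 3 - b ^ 2)|) t₀ := (hc _).abs.continuousAt
  have h2 : ContinuousAt (fun t : ℝ => 1728 * aeval t a ^ 3 / aeval t (a ^ 3 - b ^ 2)) t₀ :=
    ContinuousAt.div ((continuous_const.mul ((hc a).pow 3)).continuousAt) (hc _).continuousAt h
  have h3 := h1.eventually (lt_mem_nhds (a := |aeval t₀ (a ^ 3 - b ^ 2)| / 2) (by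
    have := abs_pos.2 h
    linarith))
  have h4 := h2.eventually (Metric.ball_mem_nhds _ hη)
  obtain ⟨r, hr, h5⟩ := Metric.eventually_nhds_iff.1 (h3.and h4)
  refine ⟨min r η, lt_min hr hη, min_le_right _ _, fun t ht => ?_⟩
  obtain ⟨h6, h7⟩ := h5 (show dist t t₀ < r by
    rw [Real.dist_eq]
    exact ht.trans_le (min_le_left _ _))
  refine ⟨h6.le, ?_⟩
  rw [Real.dist_eq] at h7
  exact h7

end Pool.Agent.H461.Fam
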