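import Pool.Agent.H461.Fam.Lat
import Pool.Graph.R_seed8.Y670.RD.Rid

/-!
# Lattices on which a binary form is divisible by the index
-/

set_option autoImplicit false

namespace Pool.Agent.H461.Fam

open Finset Polynomial
open Pool.Agent.Y670.RD

theorem fv_congr (N : ℕ) (f : ℤ[X]) {m x x' : ℤ} (y : ℤ) (h : m ∣ x - x') :
    m ∣ fv N f x y - fv N f x' y := by
  unfold fv
  rw [← sum_sub_distrib]
  refine dvd_sum fun i _ => ?_
  have e : f.coeff i * x ^ i * y ^ (N - i) - f.coeff i * x' ^ i * y ^ (N - i) =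
      (x ^ i - x' ^ i) * (f.coeff i * y ^ (N - i)) := by ring
  rw [e]
  exact (h.trans (sub_dvd_pow_sub_pow x x' i)).mul_right _

theorem fv_homog (N : ℕ) (f : ℤ[X]) (c x y : ℤ) : fv N f (c * x) (c * y) = c ^ N * fv N f x y := by
  unfold fv
  rw [mul_sum]
  refine sum_congr rfl fun i hi => ?_
  have hi' : i ≤ N := by have := mem_range.mp hi; omega
  have e : c ^ N = c ^ i * c ^ (N - i) := by rw [← pow_add]; congr 1; omega
  rw [e, mul_pow, mul_pow]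
  ring

theorem fv_one (N : ℕ) (f : ℤ[X]) (hf : f.natDegree ≤ N) (x : ℤ) : fv N f x 1 = f.eval x := by
  unfold fv
  rw [eval_eq_sum_range' (n := N + 1) (by omega)]
  refine sum_congr rfl fun i _ => ?_
  rw [one_pow, mul_one]

/-- a polynomial has roots modulo large primes -/
theorem exists_root_prime (g : ℤ[X]) (hg : 1 ≤ g.natDegree) (K : ℤ) (hK : K ≠ 0) :
    ∃ p : ℕ, p.Prime ∧ ¬ (p : ℤ) ∣ K ∧ ∃ n : ℤ, (p : ℤ) ∣ g.eval n := by
  by_cases hc : g.eval 0 = 0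
  · obtain ⟨p, hp1, hp2⟩ := Nat.exists_infinite_primes (K.natAbs + 1)
    refine ⟨p, hp2, fun h => ?_, 0, by rw [hc]; exact dvd_zero _⟩
    have := Nat.le_of_dvd (Int.natAbs_pos.2 hK) (Int.natCast_dvd.1 h)
    omega
  · set c := g.eval 0 with hcd
    -- a value different from `± c`
    obtain ⟨m, hm⟩ : ∃ m : ℤ, g.eval (c * K * m) ≠ c ∧ g.eval (c * K * m) ≠ -c := by
      by_contra hcon
      push Not at hcon
      have hcK : c * K ≠ 0 := mul_ne_zero hc hK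
      have hz : (g - C c) * (g + C c) = 0 := by
        refine eq_zero_of_infinite_isRoot _ ?_
        refine Set.Infinite.mono (s := Set.range fun m : ℤ => c * K * m) ?_ ?_
        · rintro _ ⟨m, rfl⟩
          rw [Set.mem_ofPred_eq, IsRoot.def, eval_mul, eval_sub, eval_add, eval_C]
          by_cases h1 : g.eval (c * K * m) = c
          · rw [h1, sub_self, zero_mul]
          · rw [hcon m h1, neg_add_cancel, mul_zero]
        · exact Set.infinite_range_of_injective fun a b h => mul_left_cancel₀ hcK h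
      rcases mul_eq_zero.1 hz with h1 | h1
      · have h2 : g = C c := sub_eq_zero.1 h1
        rw [h2, natDegree_C] at hg
        omega
      · have h2 : g = C (-c) := by rw [C_neg]; exact eq_neg_of_add_eq_zero_left h1
        rw [h2, natDegree_C] at hg
        omega
    obtain ⟨h, hh⟩ : c * K * m ∣ g.eval (c * K * m) - c := by
      have := sub_dvd_eval_sub (c * K * m) 0 g
      rwa [sub_zero] at this
    have e : g.eval (c * K * m) = c * (1 + K * (m * h)) := by linear_combination hh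
    have hn1 : (1 + K * (m * h)).natAbs ≠ 1 := by
      intro h1
      rcases Int.natAbs_eq_iff.1 h1 with h2 | h2
      · apply hm.1
        rw [e, h2]
        simp
      · apply hm.2
        rw [e, h2]
        simp
    obtain ⟨p, hp, hpd⟩ := Nat.exists_prime_and_dvd hn1
    have hpd' : (p : ℤ) ∣ 1 + K * (m * h) := Int.natCast_dvd.2 hpd
    refine ⟨p, hp, fun hpK => ?_, c * K * m, by rw [e]; exact hpd'.mul_left _⟩
    have h1 : (p : ℤ) ∣ 1 := (dvd_add_left (hpK.mul_right _)).1 hpd'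
    have h2 : p ∣ 1 := by exact_mod_cast h1
    exact hp.one_lt.ne' (Nat.dvd_one.1 h2)

/-- Hensel -/
theorem hensel (g : ℤ[X]) (p : ℕ) (hp : p.Prime) (n : ℤ) (h0 : (p : ℤ) ∣ g.eval n)
    (h1 : ¬ (p : ℤ) ∣ g.derivative.eval n) (k : ℕ) :
    ∃ ρ : ℤ, (p : ℤ) ∣ ρ - n ∧ ((p : ℤ) ^ (k + 1)) ∣ g.eval ρ := by
  induction k with
  | zero => exact ⟨n, by simp, by simpa using h0⟩
  | succ k ih =>
    obtain ⟨ρ, hρ, hd⟩ := ih
    have h2 : ¬ (p : ℤ) ∣ g.derivative.eval ρ := by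
      intro h3
      apply h1
      have h4 := hρ.trans (sub_dvd_eval_sub ρ n g.derivative)
      have h5 := dvd_sub h3 h4
      rwa [sub_sub_cancel] at h5
    have hpI : Prime (p : ℤ) := Nat.prime_iff_prime_int.1 hp
    have hcop : IsCoprime (g.derivative.eval ρ) (p : ℤ) :=
      ((Prime.coprime_iff_not_dvd hpI).2 h2).symm
    obtain ⟨u, v, huv⟩ := hcop
    obtain ⟨w, hw⟩ := hd
    set t : ℤ := -(u * w) with ht
    obtain ⟨q, hq⟩ := binomExpansion g ρ (t * (p : ℤ) ^ (k + 1))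
    refine ⟨ρ + t * (p : ℤ) ^ (k + 1), ?_, ?_⟩
    · have e : ρ + t * (p : ℤ) ^ (k + 1) - n = (ρ - n) + p * (t * (p : ℤ) ^ k) := by ring
      rw [e]
      exact dvd_add hρ (dvd_mul_right _ _)
    · rw [hq, hw]
      refine ⟨w * v + q * t ^ 2 * (p : ℤ) ^ k, ?_⟩
      rw [ht]
      linear_combination (-((p : ℤ) ^ (k + 1) * w)) * huv

/-- a supply of lattices -/
def Supply (g : ℤ[X]) (r : ℕ) (τ : ℝ) (M₀ : ℕ) : Prop :=
  ∃ (P : ℕ) (c C : ℝ), P.Coprime M₀ ∧ 1 ≤ P ∧ 0 < c ∧ 1 ≤ C ∧ ∀ D₀ : ℝ, 1 ≤ D₀ →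
    ∃ (D : ℕ) (ρ : ℤ), 1 ≤ D ∧ D₀ ≤ D ∧ (D : ℝ) ≤ C * D₀ ∧ (∀ p : ℕ, p.Prime → p ∣ D → p ∣ P) ∧
      (∀ x y : ℤ, y ≠ 0 → (D : ℤ) ∣ x - ρ * y → (D : ℤ) ∣ fv r g x y) ∧
      (∀ x y : ℤ, (D : ℤ) ∣ x - ρ * y → ¬ (x = 0 ∧ y = 0) →
        c * (D : ℝ) ^ τ ≤ max |(x : ℝ)| |(y : ℝ)|)

theorem near_pow (p : ℕ) (hp : p.Prime) (s : ℝ) (hs : 1 ≤ s) :
    ∃ k : ℕ, s ≤ (p : ℝ) ^ (k + 1) ∧ (p : ℝ) ^ (k + 1) ≤ p * s := by
  obtain ⟨k, hk1, hk2⟩ := exists_nat_pow_near hs (by exact_mod_cast hp.one_lt : (1 : ℝ) < p)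
  refine ⟨k, hk2.le, ?_⟩
  rw [pow_succ, mul_comm]
  exact mul_le_mul_of_nonneg_left hk1 (by positivity)

/-- two rational roots -/
theorem supply_rat (g : ℤ[X]) (a₁ b₁ a₂ b₂ : ℤ) (hb₁ : b₁ ≠ 0) (hb₂ : b₂ ≠ 0)
    (h₁ : fv g.natDegree g a₁ b₁ = 0) (h₂ : fv g.natDegree g a₂ b₂ = 0)
    (hne : a₁ * b₂ - a₂ * b₁ ≠ 0) (τ : ℝ) (hτ0 : 0 < τ) (hτ : τ < 1 / 2) (M₀ : ℕ) (hM₀ : 1 ≤ M₀) :
    Supply g g.natDegree τ M₀ := by
  obtain ⟨p, hp1, hp⟩ := Nat.exists_infinite_primes (M₀ + b₁.natAbs + b₂.natAbs + 1)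
  obtain ⟨q, hq1, hq⟩ := Nat.exists_infinite_primes (p + 1)
  have hpR : (1 : ℝ) ≤ p := by exact_mod_cast hp.one_lt.le
  have hqR : (1 : ℝ) ≤ q := by exact_mod_cast hq.one_lt.le
  have hpI : Prime (p : ℤ) := Nat.prime_iff_prime_int.1 hp
  have hqI : Prime (q : ℤ) := Nat.prime_iff_prime_int.1 hq
  have hpb : ¬ (p : ℤ) ∣ b₁ := fun h => by
    have := Nat.le_of_dvd (Int.natAbs_pos.2 hb₁) (Int.natCast_dvd.1 h)
    omega
  have hqb : ¬ (q : ℤ) ∣ b₂ := fun h => by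
    have := Nat.le_of_dvd (Int.natAbs_pos.2 hb₂) (Int.natCast_dvd.1 h)
    omega
  have hpM : ¬ p ∣ M₀ := fun h => by
    have := Nat.le_of_dvd (by omega) h
    omega
  have hqM : ¬ q ∣ M₀ := fun h => by
    have := Nat.le_of_dvd (by omega) h
    omega
  set S : ℝ := |(a₁ : ℝ)| + |(b₁ : ℝ)| + |(a₂ : ℝ)| + |(b₂ : ℝ)| with hS
  have hS0 : 0 < S := by
    have : 0 < |(b₁ : ℝ)| := abs_pos.2 (by exact_mod_cast hb₁)
    positivity
  refine ⟨p * q, 1 / (S * √(p * q)), p * q, ?_, ?_, ?_, ?_, fun D₀ hD₀ => ?_⟩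
  · exact Nat.Coprime.mul_left ((hp.coprime_iff_not_dvd).2 hpM) ((hq.coprime_iff_not_dvd).2 hqM)
  · exact Nat.mul_pos hp.pos hq.pos
  · have : 0 < √((p : ℝ) * q) := Real.sqrt_pos.2 (by positivity)
    positivity
  · nlinarith
  · set s : ℝ := √D₀ with hs
    have hs1 : 1 ≤ s := by rw [hs]; exact Real.one_le_sqrt.2 hD₀
    have hss : s * s = D₀ := Real.mul_self_sqrt (by linarith)
    obtain ⟨i, hi1, hi2⟩ := near_pow p hp s hs1
    obtain ⟨j, hj1, hj2⟩ := near_pow q hq s hs1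
    have hcop : Nat.Coprime (p ^ (i + 1)) (q ^ (j + 1)) :=
      Nat.Coprime.pow _ _ ((Nat.coprime_primes hp hq).2 (by omega))
    have hcopI : IsCoprime ((p : ℤ) ^ (i + 1)) ((q : ℤ) ^ (j + 1)) := by
      have := Nat.isCoprime_iff_coprime.2 hcop
      push_cast at this
      exact this
    have hc1 : IsCoprime ((p : ℤ) ^ (i + 1)) b₁ := ((Prime.coprime_iff_not_dvd hpI).2 hpb).pow_left
    have hc2 : IsCoprime ((q : ℤ) ^ (j + 1)) b₂ := ((Prime.coprime_iff_not_dvd hqI).2 hqb).pow_left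
    obtain ⟨u1, v1, huv1⟩ := hc1
    obtain ⟨u2, v2, huv2⟩ := hc2
    obtain ⟨m, n, hmn⟩ := id hcopI
    set ρ : ℤ := v1 * a₁ * (n * (q : ℤ) ^ (j + 1)) + v2 * a₂ * (m * (p : ℤ) ^ (i + 1)) with hρ
    have hρ1 : ((p : ℤ) ^ (i + 1)) ∣ b₁ * ρ - a₁ := by
      refine ⟨b₁ * v2 * a₂ * m - u1 * a₁ - v1 * b₁ * a₁ * m, ?_⟩
      rw [hρ]
      linear_combination (v1 * b₁ * a₁) * hmn + a₁ * huv1
    have hρ2 : ((q : ℤ) ^ (j + 1)) ∣ b₂ * ρ - a₂ := by
      refine ⟨b₂ * v1 * a₁ * n - u2 * a₂ - v2 * b₂ * a₂ * n, ?_⟩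
      rw [hρ]
      linear_combination (v2 * b₂ * a₂) * hmn + a₂ * huv2
    have hDc : ((p ^ (i + 1) * q ^ (j + 1) : ℕ) : ℤ) = (p : ℤ) ^ (i + 1) * (q : ℤ) ^ (j + 1) := by
      push_cast; ring
    have hDcR : ((p ^ (i + 1) * q ^ (j + 1) : ℕ) : ℝ) = (p : ℝ) ^ (i + 1) * (q : ℝ) ^ (j + 1) := by
      push_cast; ring
    have key1 : ∀ x y : ℤ, ((p ^ (i + 1) * q ^ (j + 1) : ℕ) : ℤ) ∣ x - ρ * y →
        ((p : ℤ) ^ (i + 1)) ∣ b₁ * x - a₁ * y := by
      intro x y h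
      rw [hDc] at h
      have e : b₁ * x - a₁ * y = b₁ * (x - ρ * y) + y * (b₁ * ρ - a₁) := by ring
      rw [e]
      exact dvd_add (((dvd_mul_right _ _).trans h).mul_left _) (hρ1.mul_left _)
    have key2 : ∀ x y : ℤ, ((p ^ (i + 1) * q ^ (j + 1) : ℕ) : ℤ) ∣ x - ρ * y →
        ((q : ℤ) ^ (j + 1)) ∣ b₂ * x - a₂ * y := by
      intro x y h
      rw [hDc] at h
      have e : b₂ * x - a₂ * y = b₂ * (x - ρ * y) + y * (b₂ * ρ - a₂) := by ring
      rw [e]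
      exact dvd_add (((dvd_mul_left _ _).trans h).mul_left _) (hρ2.mul_left _)
    have hdiv : ∀ (a b m x y : ℤ), IsCoprime m b → fv g.natDegree g a b = 0 → m ∣ b * x - a * y →
        m ∣ fv g.natDegree g x y := by
      intro a b m x y hmb h0 hd
      have h1 : m ∣ fv g.natDegree g (b * x) (b * y) - fv g.natDegree g (y * a) (b * y) :=
        fv_congr _ _ _ (by rwa [mul_comm y a])
      have h2 : fv g.natDegree g (y * a) (b * y) = 0 := by
        rw [mul_comm b y, fv_homog, h0, mul_zero]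
      rw [h2, sub_zero, fv_homog] at h1
      exact (hmb.pow_right).dvd_of_dvd_mul_left h1
    refine ⟨p ^ (i + 1) * q ^ (j + 1), ρ, ?_, ?_, ?_, ?_, ?_, ?_⟩
    · exact Nat.mul_pos (pow_pos hp.pos _) (pow_pos hq.pos _)
    · rw [hDcR, ← hss]
      exact mul_le_mul hi1 hj1 (by linarith) (by positivity)
    · rw [hDcR]
      calc (p : ℝ) ^ (i + 1) * (q : ℝ) ^ (j + 1) ≤ (p * s) * (q * s) :=
          mul_le_mul hi2 hj2 (by positivity) (by positivity)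
        _ = p * q * D₀ := by rw [← hss]; ring
    · intro l hl hld
      rcases (Nat.Prime.dvd_mul hl).1 hld with h | h
      · exact ((Nat.prime_dvd_prime_iff_eq hl hp).1 (hl.dvd_of_dvd_pow h)) ▸ dvd_mul_right _ _
      · exact ((Nat.prime_dvd_prime_iff_eq hl hq).1 (hl.dvd_of_dvd_pow h)) ▸ dvd_mul_left _ _
    · intro x y _ h
      rw [hDc]
      exact hcopI.mul_dvd (hdiv a₁ b₁ _ x y ⟨u1, v1, huv1⟩ h₁ (key1 x y h))
        (hdiv a₂ b₂ _ x y ⟨u2, v2, huv2⟩ h₂ (key2 x y h))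
    · intro x y h hxy
      set Mx : ℝ := max |(x : ℝ)| |(y : ℝ)| with hMx
      have hMx0 : 0 ≤ Mx := le_max_of_le_left (abs_nonneg _)
      have hbound : ∀ (a b : ℤ) (m : ℕ), (m : ℤ) ∣ b * x - a * y → b * x - a * y ≠ 0 →
          |(a : ℝ)| + |(b : ℝ)| ≤ S → (m : ℝ) ≤ S * Mx := by
        intro a b m hd h0 hab
        have h1 := Int.le_of_dvd (abs_pos.2 h0) ((dvd_abs _ _).2 hd)
        have h2 : (m : ℝ) ≤ |(b : ℝ) * x - a * y| := by exact_mod_cast h1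
        calc (m : ℝ) ≤ |(b : ℝ) * x - a * y| := h2
          _ ≤ |(b : ℝ) * x| + |(a : ℝ) * y| := abs_sub _ _
          _ = |(b : ℝ)| * |(x : ℝ)| + |(a : ℝ)| * |(y : ℝ)| := by rw [abs_mul, abs_mul]
          _ ≤ |(b : ℝ)| * Mx + |(a : ℝ)| * Mx :=
            add_le_add (mul_le_mul_of_nonneg_left (le_max_left _ _) (abs_nonneg _))
              (mul_le_mul_of_nonneg_left (le_max_right _ _) (abs_nonneg _))
          _ = (|(a : ℝ)| + |(b : ℝ)|) * Mx := by ring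
          _ ≤ S * Mx := mul_le_mul_of_nonneg_right hab hMx0
      have hsM : s ≤ S * Mx := by
        by_cases h0 : b₁ * x - a₁ * y = 0
        · have h0' : b₂ * x - a₂ * y ≠ 0 := by
            intro h3
            apply hxy
            have hx0 : (a₁ * b₂ - a₂ * b₁) * x = 0 := by linear_combination a₁ * h3 - a₂ * h0
            have hy0 : (a₁ * b₂ - a₂ * b₁) * y = 0 := by linear_combination b₁ * h3 - b₂ * h0
            exact ⟨(mul_eq_zero.1 hx0).resolve_left hne, (mul_eq_zero.1 hy0).resolve_left hne⟩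
          have h4 := hbound a₂ b₂ (q ^ (j + 1)) (by push_cast; exact key2 x y h) h0' (by
            rw [hS]; linarith [abs_nonneg (a₁ : ℝ), abs_nonneg (b₁ : ℝ)])
          push_cast at h4
          linarith
        · have h4 := hbound a₁ b₁ (p ^ (i + 1)) (by push_cast; exact key1 x y h) h0 (by
            rw [hS]; linarith [abs_nonneg (a₂ : ℝ), abs_nonneg (b₂ : ℝ)])
          push_cast at h4
          linarith
      have hpq0 : 0 < √((p : ℝ) * q) := Real.sqrt_pos.2 (by positivity)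
      have hDle : ((p ^ (i + 1) * q ^ (j + 1) : ℕ) : ℝ) ≤ (p * q) * D₀ := by
        rw [hDcR]
        calc (p : ℝ) ^ (i + 1) * (q : ℝ) ^ (j + 1) ≤ (p * s) * (q * s) :=
            mul_le_mul hi2 hj2 (by positivity) (by positivity)
          _ = p * q * D₀ := by rw [← hss]; ring
      have hD1 : (1 : ℝ) ≤ ((p ^ (i + 1) * q ^ (j + 1) : ℕ) : ℝ) := by
        exact_mod_cast Nat.mul_pos (pow_pos hp.pos _) (pow_pos hq.pos _)
      have h5 : ((p ^ (i + 1) * q ^ (j + 1) : ℕ) : ℝ) ^ τ ≤ √(p * q) * s := by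
        calc ((p ^ (i + 1) * q ^ (j + 1) : ℕ) : ℝ) ^ τ ≤ ((p ^ (i + 1) * q ^ (j + 1) : ℕ) : ℝ) ^ (1 / 2 : ℝ) :=
            Real.rpow_le_rpow_of_exponent_le hD1 hτ.le
          _ ≤ ((p * q) * D₀) ^ (1 / 2 : ℝ) := Real.rpow_le_rpow (by positivity) hDle (by norm_num)
          _ = √(p * q) * s := by
            rw [← Real.sqrt_eq_rpow, Real.sqrt_mul (by positivity)]
      calc 1 / (S * √(p * q)) * ((p ^ (i + 1) * q ^ (j + 1) : ℕ) : ℝ) ^ τ ≤
          1 / (S * √(p * q)) * (√(p * q) * s) := mul_le_mul_of_nonneg_left h5 (by positivity)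
        _ = s / S := by field_simp
        _ ≤ Mx := by rw [div_le_iff₀ hS0]; linarith

end Pool.Agent.H461.Fam
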